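import Mathlib

set_option autoImplicit false

/-!
# Unconditional bases: domination, order intervals, local dependence on coordinates
-/

open Filter Topology Set

namespace Pool.Agent.LibPNormLFC

variable {X : Type} [NormedAddCommGroup X] [NormedSpace ℝ X]
  (b : UnconditionalSchauderBasis ℕ ℝ X)

/-- `|x| ≤ |y|` coordinatewise -/
def Dom (x y : X) : Prop := ∀ i, |b.coord i x| ≤ |b.coord i y|

variable {b}

lemma Dom.trans {x y z : X} (h : Dom b x y) (h' : Dom b y z) : Dom b x z :=
  fun i => (h i).trans (h' i)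

lemma Dom.refl (x : X) : Dom b x x := fun _ => le_rfl

lemma coord_basis (i j : ℕ) : b.coord i (b j) = if i = j then 1 else 0 := by
  have h := b.ortho i j
  by_cases hij : i = j
  · subst hij
    simpa using h
  · rw [if_neg hij]
    simpa [Pi.single_apply, hij] using h

lemma ext_coord {x y : X} (h : ∀ i, b.coord i x = b.coord i y) : x = y := by
  have h1 := b.expansion x
  have h2 := b.expansion y
  simp only [h] at h1
  exact h1.unique h2

/-- the partial sums -/
noncomputable def P (b : UnconditionalSchauderBasis ℕ ℝ X) (n : ℕ) : X →L[ℝ] X :=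
  GeneralSchauderBasis.proj b (Finset.range n)

lemma coord_sum (s : Finset ℕ) (a : ℕ → ℝ) (j : ℕ) :
    b.coord j (∑ i ∈ s, a i • b i) = if j ∈ s then a j else 0 := by
  rw [map_sum]
  simp only [map_smul, coord_basis, smul_eq_mul, mul_ite, mul_one, mul_zero]
  rw [Finset.sum_ite_eq]

lemma coord_proj (s : Finset ℕ) (x : X) (j : ℕ) :
    b.coord j (GeneralSchauderBasis.proj b s x) = if j ∈ s then b.coord j x else 0 := by
  rw [GeneralSchauderBasis.proj_apply, coord_sum]

lemma coord_P (n : ℕ) (x : X) (j : ℕ) :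
    b.coord j (P b n x) = if j < n then b.coord j x else 0 := by
  unfold P
  rw [coord_proj]
  simp only [Finset.mem_range]

lemma tendsto_P (x : X) : Tendsto (fun n => P b n x) atTop (𝓝 x) := by
  have h := (b.expansion x).tendsto_sum_nat
  refine h.congr (fun n => ?_)
  unfold P
  rw [GeneralSchauderBasis.proj_apply]

lemma dom_P (n : ℕ) (x : X) : Dom b (P b n x) x := by
  intro i
  rw [coord_P]
  split
  · exact le_rfl
  · rw [abs_zero]; exact abs_nonneg _

lemma dom_Q (n : ℕ) (x : X) : Dom b (x - P b n x) x := by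
  intro i
  rw [map_sub, coord_P]
  split
  · rw [sub_self, abs_zero]; exact abs_nonneg _
  · rw [sub_zero]

section Complete

variable [CompleteSpace X]

lemma exists_const (b : UnconditionalSchauderBasis ℕ ℝ X) : ∃ K : ℝ, 1 ≤ K ∧
    (∀ (f : X →L[ℝ] ℝ) (y : X) (s : Finset ℕ),
      ∑ i ∈ s, |f (b i)| * |b.coord i y| ≤ K * ‖f‖ * ‖y‖) ∧
    (∀ x y, Dom b x y → ‖x‖ ≤ K * ‖y‖) := by
  classical
  obtain ⟨C, hC⟩ := UnconditionalSchauderBasis.exists_norm_proj_le b
  have hsum : ∀ (f : X →L[ℝ] ℝ) (y : X) (s : Finset ℕ),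
      ∑ i ∈ s, |f (b i)| * |b.coord i y| ≤ max 1 (2 * C) * ‖f‖ * ‖y‖ := by
    intro f y s
    have hp : ∀ s' : Finset ℕ, |f (GeneralSchauderBasis.proj b s' y)| ≤ C * ‖f‖ * ‖y‖ := by
      intro s'
      have h1 := f.le_opNorm (GeneralSchauderBasis.proj b s' y)
      have h2 := (GeneralSchauderBasis.proj b s').le_opNorm y
      have h3 : ‖GeneralSchauderBasis.proj b s' y‖ ≤ C * ‖y‖ :=
        h2.trans (mul_le_mul_of_nonneg_right (hC s') (norm_nonneg _))
      rw [Real.norm_eq_abs] at h1
      calc |f (GeneralSchauderBasis.proj b s' y)| ≤ ‖f‖ * ‖GeneralSchauderBasis.proj b s' y‖ := h1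
        _ ≤ ‖f‖ * (C * ‖y‖) := mul_le_mul_of_nonneg_left h3 (norm_nonneg _)
        _ = C * ‖f‖ * ‖y‖ := by ring
    have hfp : ∀ s' : Finset ℕ, f (GeneralSchauderBasis.proj b s' y) =
        ∑ i ∈ s', b.coord i y * f (b i) := by
      intro s'
      rw [GeneralSchauderBasis.proj_apply, map_sum]
      simp only [map_smul, smul_eq_mul]
    have h1 : ∑ i ∈ s, |f (b i)| * |b.coord i y| =
        f (GeneralSchauderBasis.proj b (s.filter (fun i => 0 ≤ b.coord i y * f (b i))) y) -
        f (GeneralSchauderBasis.proj b (s.filter (fun i => ¬ 0 ≤ b.coord i y * f (b i))) y) := by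
      rw [hfp, hfp, ← Finset.sum_filter_add_sum_filter_not s
        (fun i => 0 ≤ b.coord i y * f (b i)), sub_eq_add_neg, ← Finset.sum_neg_distrib]
      congr 1
      · apply Finset.sum_congr rfl
        intro i hi
        rw [Finset.mem_filter] at hi
        rw [← abs_mul, mul_comm, abs_of_nonneg hi.2]
      · apply Finset.sum_congr rfl
        intro i hi
        rw [Finset.mem_filter, not_le] at hi
        rw [← abs_mul, mul_comm, abs_of_neg hi.2]
    have h2 := le_abs_self
      (f (GeneralSchauderBasis.proj b (s.filter (fun i => 0 ≤ b.coord i y * f (b i))) y))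
    have h3 := neg_abs_le
      (f (GeneralSchauderBasis.proj b (s.filter (fun i => ¬ 0 ≤ b.coord i y * f (b i))) y))
    have h4 := hp (s.filter (fun i => 0 ≤ b.coord i y * f (b i)))
    have h5 := hp (s.filter (fun i => ¬ 0 ≤ b.coord i y * f (b i)))
    have h6 : (2 * C) * ‖f‖ * ‖y‖ ≤ max 1 (2 * C) * ‖f‖ * ‖y‖ := by
      apply mul_le_mul_of_nonneg_right _ (norm_nonneg _)
      exact mul_le_mul_of_nonneg_right (le_max_right _ _) (norm_nonneg _)
    rw [h1]
    linarith
  refine ⟨max 1 (2 * C), le_max_left _ _, hsum, fun x y hxy => ?_⟩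
  have hfin : ∀ s : Finset ℕ, ‖GeneralSchauderBasis.proj b s x‖ ≤ max 1 (2 * C) * ‖y‖ := by
    intro s
    obtain ⟨g, hg1, hg2⟩ := exists_dual_vector'' ℝ (GeneralSchauderBasis.proj b s x)
    have h1 : ‖GeneralSchauderBasis.proj b s x‖ = ∑ i ∈ s, b.coord i x * g (b i) := by
      have h2 : g (GeneralSchauderBasis.proj b s x) = ∑ i ∈ s, b.coord i x * g (b i) := by
        rw [GeneralSchauderBasis.proj_apply, map_sum]
        simp only [map_smul, smul_eq_mul]
      rw [← h2, hg2]
      rfl
    rw [h1]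
    calc ∑ i ∈ s, b.coord i x * g (b i) ≤ ∑ i ∈ s, |g (b i)| * |b.coord i y| := by
          apply Finset.sum_le_sum
          intro i _
          refine (le_abs_self _).trans ?_
          rw [abs_mul, mul_comm]
          exact mul_le_mul_of_nonneg_left (hxy i) (abs_nonneg _)
      _ ≤ max 1 (2 * C) * ‖g‖ * ‖y‖ := hsum g y s
      _ ≤ max 1 (2 * C) * 1 * ‖y‖ := by
          apply mul_le_mul_of_nonneg_right _ (norm_nonneg _)
          apply mul_le_mul_of_nonneg_left hg1
          exact le_trans zero_le_one (le_max_left _ _)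
      _ = max 1 (2 * C) * ‖y‖ := by ring
  exact le_of_tendsto (tendsto_P (b := b) x).norm (Eventually.of_forall (fun n => hfin _))

/-- the unconditionality constant -/
noncomputable def K (b : UnconditionalSchauderBasis ℕ ℝ X) : ℝ := (exists_const b).choose

lemma one_le_K : 1 ≤ K b := (exists_const b).choose_spec.1

lemma K_pos : 0 < K b := lt_of_lt_of_le one_pos one_le_K

lemma sum_abs_le (f : X →L[ℝ] ℝ) (y : X) (s : Finset ℕ) :
    ∑ i ∈ s, |f (b i)| * |b.coord i y| ≤ K b * ‖f‖ * ‖y‖ :=
  (exists_const b).choose_spec.2.1 f y s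

lemma Dom.norm_le {x y : X} (h : Dom b x y) : ‖x‖ ≤ K b * ‖y‖ :=
  (exists_const b).choose_spec.2.2 x y h

lemma norm_P_le (n : ℕ) (x : X) : ‖P b n x‖ ≤ K b * ‖x‖ := (dom_P n x).norm_le

lemma norm_Q_le (n : ℕ) (x : X) : ‖x - P b n x‖ ≤ K b * ‖x‖ := (dom_Q n x).norm_le

/-- vectors with prescribed dominated coordinates exist -/
lemma exists_vec (x : X) (a : ℕ → ℝ) (h : ∀ i, |a i| ≤ |b.coord i x|) :
    ∃ y : X, ∀ i, b.coord i y = a i := by
  classical
  have hs : Summable (fun i => a i • b i) := by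
    rw [summable_iff_vanishing_norm]
    intro ε hε
    obtain ⟨s, hs⟩ := summable_iff_vanishing_norm.1 (b.expansion x).summable (ε / K b)
      (div_pos hε K_pos)
    refine ⟨s, fun t ht => ?_⟩
    have h1 := hs t ht
    have h2 : Dom b (∑ i ∈ t, a i • b i) (∑ i ∈ t, b.coord i x • b i) := by
      intro j
      rw [coord_sum, coord_sum]
      split
      · exact h j
      · exact le_rfl
    refine h2.norm_le.trans_lt ?_
    rw [lt_div_iff₀ K_pos] at h1
    rwa [mul_comm]
  refine ⟨∑' i, a i • b i, fun j => ?_⟩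
  have h1 := hs.hasSum.mapL (b.coord j)
  have h2 : HasSum (fun i => b.coord j (a i • b i)) (a j) := by
    have h3 : ∀ i, i ≠ j → b.coord j (a i • b i) = 0 := by
      intro i hi
      rw [map_smul, coord_basis, if_neg (fun h => hi h.symm), smul_zero]
    have h4 := hasSum_single (f := fun i => b.coord j (a i • b i)) j (fun i hi => h3 i hi)
    have h5 : b.coord j (a j • b j) = a j := by
      rw [map_smul, coord_basis, if_pos rfl, smul_eq_mul, mul_one]
    rw [← h5]
    exact h4
  exact h1.unique h2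

/-- cutting `u` down to the order interval of `x` -/
lemma exists_clamp {u y : X} (x : X) (h : Dom b u y) :
    ∃ v, Dom b v x ∧ ‖u - v‖ ≤ K b * ‖y - x‖ := by
  obtain ⟨v, hv⟩ := exists_vec (b := b) x
    (fun i => max (-|b.coord i x|) (min (b.coord i u) |b.coord i x|)) (fun i => by
      rw [abs_le]
      exact ⟨le_max_left _ _, max_le (by linarith [abs_nonneg (b.coord i x)]) (min_le_right _ _)⟩)
  refine ⟨v, fun i => ?_, Dom.norm_le (b := b) (fun i => ?_)⟩
  · rw [hv, abs_le]
    exact ⟨le_max_left _ _, max_le (by linarith [abs_nonneg (b.coord i x)]) (min_le_right _ _)⟩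
  · rw [map_sub, map_sub, hv]
    have h1 := h i
    have h2 := abs_abs_sub_abs_le (b.coord i y) (b.coord i x)
    have h3 := le_abs_self (|b.coord i y| - |b.coord i x|)
    have hx0 := abs_nonneg (b.coord i x)
    rw [abs_le] at h1
    rcases le_total (b.coord i u) |b.coord i x| with h4 | h4
    · rw [min_eq_left h4]
      rcases le_total (-|b.coord i x|) (b.coord i u) with h5 | h5
      · rw [max_eq_right h5, sub_self, abs_zero]
        exact abs_nonneg _
      · rw [max_eq_left h5, abs_le]
        constructor <;> linarith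
    · rw [min_eq_right h4, max_eq_right (by linarith), abs_le]
      constructor <;> linarith

lemma isCompact_interval (x : X) : IsCompact {y : X | Dom b y x} := by
  classical
  have hvec : ∀ θ : ℕ → ℝ, ∃ y : X, ∀ i, b.coord i y =
      max (-1) (min 1 (θ i)) * b.coord i x := by
    intro θ
    refine exists_vec x _ (fun i => ?_)
    rw [abs_mul]
    apply mul_le_of_le_one_left (abs_nonneg _)
    rw [abs_le]
    exact ⟨le_max_left _ _, max_le (by norm_num) (min_le_left _ _)⟩
  choose Φ hΦ using hvec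
  have hcont : Continuous Φ := by
    have hu : TendstoUniformly (fun n θ => P b n (Φ θ)) Φ atTop := by
      rw [Metric.tendstoUniformly_iff]
      intro ε hε
      have h1 : ∀ᶠ n in atTop, ‖x - P b n x‖ < ε / K b := by
        have h2 := tendsto_P (b := b) x
        rw [Metric.tendsto_atTop] at h2
        obtain ⟨N, hN⟩ := h2 (ε / K b) (div_pos hε K_pos)
        filter_upwards [eventually_ge_atTop N] with n hn
        have := hN n hn
        rwa [dist_comm, dist_eq_norm] at this
      filter_upwards [h1] with n hn θ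
      rw [dist_eq_norm]
      have h3 : Dom b (Φ θ - P b n (Φ θ)) (x - P b n x) := by
        intro i
        rw [map_sub, map_sub, coord_P, coord_P, hΦ]
        split
        · rw [sub_self, sub_self]
        · rw [sub_zero, sub_zero, abs_mul]
          apply mul_le_of_le_one_left (abs_nonneg _)
          rw [abs_le]
          exact ⟨le_max_left _ _, max_le (by norm_num) (min_le_left _ _)⟩
      refine h3.norm_le.trans_lt ?_
      rw [lt_div_iff₀ K_pos] at hn
      rwa [mul_comm]
    refine hu.continuous (Frequently.of_forall (fun n => ?_))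
    have h4 : (fun θ => P b n (Φ θ)) = fun θ : ℕ → ℝ =>
        ∑ i ∈ Finset.range n, (max (-1) (min 1 (θ i)) * b.coord i x) • b i := by
      funext θ
      unfold P
      rw [GeneralSchauderBasis.proj_apply]
      simp only [hΦ]
    rw [h4]
    fun_prop
  have hK := (isCompact_univ_pi (fun _ : ℕ => isCompact_Icc (a := (-1 : ℝ)) (b := 1))).image hcont
  convert hK using 1
  ext y
  rw [mem_image]
  constructor
  · intro hy
    refine ⟨fun i => b.coord i y / b.coord i x, ?_, ?_⟩
    · intro i _
      have h1 := hy i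
      show b.coord i y / b.coord i x ∈ Icc (-1 : ℝ) 1
      rw [mem_Icc, ← abs_le]
      rcases eq_or_ne (b.coord i x) 0 with h0 | h0
      · rw [h0, div_zero, abs_zero]; exact zero_le_one
      · rw [abs_div, div_le_one (abs_pos.2 h0)]
        exact h1
    · apply ext_coord (b := b)
      intro i
      rw [hΦ]
      have h1 := hy i
      rcases eq_or_ne (b.coord i x) 0 with h0 | h0
      · rw [h0, abs_zero] at h1
        have h2 : b.coord i y = 0 := abs_eq_zero.1 (le_antisymm h1 (abs_nonneg _))
        rw [h0, mul_zero, h2]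
      · have h2 : |b.coord i y / b.coord i x| ≤ 1 := by
          rw [abs_div, div_le_one (abs_pos.2 h0)]
          exact h1
        rw [abs_le] at h2
        rw [min_eq_right h2.2, max_eq_right h2.1, div_mul_cancel₀ _ h0]
  · rintro ⟨θ, _, rfl⟩ i
    rw [hΦ, abs_mul]
    apply mul_le_of_le_one_left (abs_nonneg _)
    rw [abs_le]
    exact ⟨le_max_left _ _, max_le (by norm_num) (min_le_left _ _)⟩

end Complete

/-! ### local dependence on coordinates -/

/-- near `x` the function `H` depends only on the first `m` coordinates -/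
def LCat (b : UnconditionalSchauderBasis ℕ ℝ X) (H : X → ℝ) (x : X) : Prop :=
  ∃ m : ℕ, ∃ δ : ℝ, 0 < δ ∧ ∀ y z : X, ‖y - x‖ < δ → ‖z - x‖ < δ →
    (∀ i, i < m → b.coord i y = b.coord i z) → H y = H z

lemma LCat.uniform {H : X → ℝ} {S : Set X} (hS : IsCompact S) (h : ∀ x ∈ S, LCat b H x) :
    ∃ m : ℕ, ∃ δ : ℝ, 0 < δ ∧ ∀ x ∈ S, ∀ y z : X, ‖y - x‖ < δ → ‖z - x‖ < δ →
      (∀ i, i < m → b.coord i y = b.coord i z) → H y = H z := by
  refine hS.induction_on (p := fun T => ∃ m : ℕ, ∃ δ : ℝ, 0 < δ ∧ ∀ x ∈ T, ∀ y z : X,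
    ‖y - x‖ < δ → ‖z - x‖ < δ → (∀ i, i < m → b.coord i y = b.coord i z) → H y = H z) ?_ ?_ ?_ ?_
  · exact ⟨0, 1, one_pos, fun x hx => absurd hx (Set.notMem_empty _)⟩
  · rintro T T' hTT ⟨m, δ, hδ, h1⟩
    exact ⟨m, δ, hδ, fun x hx => h1 x (hTT hx)⟩
  · rintro T T' ⟨m, δ, hδ, h1⟩ ⟨m', δ', hδ', h1'⟩
    refine ⟨max m m', min δ δ', lt_min hδ hδ', fun x hx y z hy hz hyz => ?_⟩
    rcases hx with hx | hx
    · exact h1 x hx y z (hy.trans_le (min_le_left _ _)) (hz.trans_le (min_le_left _ _))
        (fun i hi => hyz i (hi.trans_le (le_max_left _ _)))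
    · exact h1' x hx y z (hy.trans_le (min_le_right _ _)) (hz.trans_le (min_le_right _ _))
        (fun i hi => hyz i (hi.trans_le (le_max_right _ _)))
  · intro x hx
    obtain ⟨m, δ, hδ, h1⟩ := h x hx
    refine ⟨Metric.ball x (δ / 2), mem_nhdsWithin_of_mem_nhds
      (Metric.ball_mem_nhds x (by positivity)), m, δ / 2, by positivity,
      fun x' hx' y z hy hz hyz => ?_⟩
    rw [Metric.mem_ball, dist_eq_norm] at hx'
    have h2 : ∀ w : X, ‖w - x'‖ < δ / 2 → ‖w - x‖ < δ := by
      intro w hw
      have h3 := norm_add_le (w - x') (x' - x)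
      rw [sub_add_sub_cancel] at h3
      linarith
    exact h1 y z (h2 y hy) (h2 z hz) hyz

end Pool.Agent.LibPNormLFC
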