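import Mathlib

set_option autoImplicit false

/-!
# `p`-norms which locally depend on finitely many coordinates of an unconditional basis
-/

open Topology

namespace Pool.Agent.LibPNormLFC

/-- `ρ` is a `p`-norm on `X` (positively homogeneous and even, with
`ρ (x + y) ^ p ≤ ρ x ^ p + ρ y ^ p`) such that `a ‖x‖ ≤ ρ x ≤ c ‖x‖`; it is monotone in the moduli
of the coordinates with respect to the unconditional basis `b`; and each `x ≠ 0` has a neighbourhood
on which `ρ` depends only on the first `n` coordinates, for some `n`. -/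
structure IsLocPNorm {X : Type} [NormedAddCommGroup X] [NormedSpace ℝ X]
    (b : UnconditionalSchauderBasis ℕ ℝ X) (p a c : ℝ) (ρ : X → ℝ) : Prop where
  lower : ∀ x, a * ‖x‖ ≤ ρ x
  upper : ∀ x, ρ x ≤ c * ‖x‖
  smul : ∀ (t : ℝ) (x : X), ρ (t • x) = |t| * ρ x
  add_le : ∀ x y, ρ (x + y) ^ p ≤ ρ x ^ p + ρ y ^ p
  mono : ∀ x y, (∀ i, |b.coord i x| ≤ |b.coord i y|) → ρ x ≤ ρ y
  loc : ∀ x, x ≠ 0 → ∃ U ∈ 𝓝 x, ∃ n : ℕ, ∀ y ∈ U, ∀ z ∈ U,
    (∀ i, i < n → b.coord i y = b.coord i z) → ρ y = ρ z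

end Pool.Agent.LibPNormLFC
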