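import Pool.Agent.Lib_MP_b3cab1_pn.Shrink

set_option autoImplicit false

/-!
# From a bump function to a homogeneous gauge
-/

open Filter Topology Set

namespace Pool.Agent.LibPNormLFC

variable {X : Type} [NormedAddCommGroup X] [NormedSpace ℝ X]
  {b : UnconditionalSchauderBasis ℕ ℝ X}

lemma separable_of_basis (b : UnconditionalSchauderBasis ℕ ℝ X) :
    TopologicalSpace.SeparableSpace X := by
  rw [← TopologicalSpace.isSeparable_univ_iff]
  have h1 : TopologicalSpace.IsSeparable (range (fun i => b i)) :=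
    (countable_range _).isSeparable
  have h2 : TopologicalSpace.IsSeparable (Submodule.span ℝ (range (fun i => b i)) : Set X) :=
    h1.span
  refine h2.closure.mono (fun x _ => ?_)
  refine mem_closure_of_tendsto (tendsto_P (b := b) x) (Eventually.of_forall fun n => ?_)
  unfold P
  rw [GeneralSchauderBasis.proj_apply]
  exact Submodule.sum_mem _ (fun i _ => Submodule.smul_mem _ _ (Submodule.subset_span ⟨i, rfl⟩))

variable [CompleteSpace X]

lemma P_sub_P {m n : ℕ} (h : m ≤ n) (y : X) : P b n y - P b m y = P b n y - P b m (P b n y) := by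
  congr 1
  apply ext_coord (b := b)
  intro i
  rw [coord_P, coord_P, coord_P]
  by_cases hi : i < m
  · rw [if_pos hi, if_pos hi, if_pos (by omega)]
  · rw [if_neg hi, if_neg hi]

/-- local uniform convergence of the truncations -/
lemma exists_tail_nhds {B : X → ℝ} {R : ℝ} (hB : Step B R) (x : X) : ∃ ρ : ℝ, 0 < ρ ∧
    ∀ ε : ℝ, 0 < ε → ∃ M : ℕ, ∀ m, M ≤ m → ∀ n, m ≤ n → ∀ y : X, ‖y - x‖ < ρ →
      |B (P b n y) - B (P b m y)| ≤ ε := by
  classical
  obtain ⟨U, hU, n0, φ, g, hg, hgU⟩ := hB.lfc x
  obtain ⟨r, hr, hrU⟩ := Metric.mem_nhds_iff.1 hU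
  have hK := K_pos (b := b)
  refine ⟨r / (4 * K b), by positivity, fun ε hε => ?_⟩
  set ρ : ℝ := r / (4 * K b) with hρ
  have hρ0 : 0 < ρ := by positivity
  have hKρ : K b * ρ = r / 4 := by rw [hρ]; field_simp
  obtain ⟨M1, hM1⟩ : ∃ M1, ∀ m, M1 ≤ m → ‖P b m x - x‖ < r / 4 := by
    obtain ⟨N, hN⟩ := Metric.tendsto_atTop.1 (tendsto_P (b := b) x) (r / 4) (by positivity)
    exact ⟨N, fun m hm => by have := hN m hm; rwa [dist_eq_norm] at this⟩
  have hPU : ∀ m, M1 ≤ m → ∀ y : X, ‖y - x‖ < ρ → P b m y ∈ U := by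
    intro m hm y hy
    apply hrU
    rw [Metric.mem_ball, dist_eq_norm]
    have h1 : P b m y - x = P b m (y - x) + (P b m x - x) := by rw [map_sub]; abel
    rw [h1]
    refine (norm_add_le _ _).trans_lt ?_
    have h2 := norm_P_le (b := b) m (y - x)
    have h3 := hM1 m hm
    have h4 : K b * ‖y - x‖ < K b * ρ := mul_lt_mul_of_pos_left hy hK
    linarith
  -- bound for the norms
  set D : ℝ := K b * (‖x‖ + ρ) with hD
  have hD0 : 0 < D := by positivity
  have hPD : ∀ m, ∀ y : X, ‖y - x‖ < ρ → ‖P b m y‖ ≤ D := by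
    intro m y hy
    refine (norm_P_le (b := b) m y).trans ?_
    apply mul_le_mul_of_nonneg_left _ hK.le
    have := norm_add_le (y - x) x
    rw [sub_add_cancel] at this
    linarith
  set C' : ℝ := ‖fun l => ‖φ l‖ * D‖ with hC'
  have hφD : ∀ m, ∀ y : X, ‖y - x‖ < ρ → (fun l => φ l (P b m y)) ∈ Metric.closedBall
      (0 : Fin n0 → ℝ) C' := by
    intro m y hy
    rw [mem_closedBall_zero_iff, pi_norm_le_iff_of_nonneg (norm_nonneg _)]
    intro l
    refine ((φ l).le_opNorm _).trans ?_
    refine le_trans ?_ (norm_le_pi_norm (fun l => ‖φ l‖ * D) l)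
    rw [Real.norm_of_nonneg (by positivity)]
    exact mul_le_mul_of_nonneg_left (hPD m y hy) (norm_nonneg _)
  have huc := (isCompact_closedBall (0 : Fin n0 → ℝ) C').uniformContinuousOn_of_continuous
    hg.continuousOn
  rw [Metric.uniformContinuousOn_iff] at huc
  obtain ⟨η, hη, hη2⟩ := huc ε hε
  choose Mx hMx using fun l : Fin n0 => shrinking (b := b) hB (φ l)
    (show 0 < η / (2 * D) by positivity)
  refine ⟨max M1 (Finset.univ.sup Mx), fun m hm n hmn y hy => ?_⟩
  have hm1 : M1 ≤ m := (le_max_left _ _).trans hm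
  have hm2 : ∀ l, Mx l ≤ m := fun l =>
    (Finset.le_sup (f := Mx) (Finset.mem_univ l)).trans ((le_max_right _ _).trans hm)
  rw [hgU _ (hPU m hm1 y hy), hgU _ (hPU n (hm1.trans hmn) y hy)]
  have h1 := hη2 _ (hφD n y hy) _ (hφD m y hy) (by
    rw [dist_eq_norm]
    have h2 : ‖(fun l => φ l (P b n y)) - fun l => φ l (P b m y)‖ ≤ η / 2 := by
      rw [pi_norm_le_iff_of_nonneg (by positivity)]
      intro l
      show ‖φ l (P b n y) - φ l (P b m y)‖ ≤ η / 2
      rw [← map_sub, P_sub_P hmn, Real.norm_eq_abs]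
      refine (hMx l m (hm2 l) (P b n y)).trans ?_
      calc η / (2 * D) * ‖P b n y‖ ≤ η / (2 * D) * D :=
            mul_le_mul_of_nonneg_left (hPD n y hy) (by positivity)
        _ = η / 2 := by field_simp
    linarith)
  rw [Real.dist_eq] at h1
  exact h1.le

lemma exists_subseq {B : X → ℝ} {R : ℝ} (hB : Step B R) : ∃ m : ℕ → ℕ, Monotone m ∧
    (∀ k, k ≤ m k) ∧ ∀ x : X, ∃ k : ℕ, ∃ ρ : ℝ, 0 < ρ ∧ ∀ y : X, ‖y - x‖ < ρ → ∀ n, k < n →
      |B (P b (m n) y) - B (P b (m k) y)| ≤ (1 / 2) ^ (k + 4) := by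
  classical
  haveI := separable_of_basis b
  haveI := UniformSpace.secondCountable_of_separable X
  choose ρ hρ M hM using fun x => exists_tail_nhds (b := b) hB x
  obtain ⟨s, hs1, hs2⟩ := TopologicalSpace.countable_cover_nhds
    (f := fun x : X => Metric.ball x (ρ x)) (fun x => Metric.ball_mem_nhds x (hρ x))
  have hsne : s.Nonempty := by
    by_contra hc
    rw [not_nonempty_iff_eq_empty] at hc
    rw [hc] at hs2
    simp only [mem_empty_iff_false, iUnion_of_empty, iUnion_empty] at hs2
    exact Set.empty_ne_univ hs2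
  obtain ⟨f, hf⟩ := hs1.exists_eq_range hsne
  set T : ℕ → ℕ → ℕ := fun j k => M (f j) ((1 / 2) ^ (k + 4)) (by positivity) with hT
  set m : ℕ → ℕ := fun k => k + (Finset.range (k + 1)).sup
    (fun k' => (Finset.range (k + 1)).sup (fun j => T j k')) with hm
  have hmono : Monotone m := by
    intro k l hkl
    have h1 : (Finset.range (k + 1)).sup
        (fun k' => (Finset.range (k + 1)).sup (fun j => T j k')) ≤ (Finset.range (l + 1)).sup
        (fun k' => (Finset.range (l + 1)).sup (fun j => T j k')) := by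
      apply Finset.sup_le
      intro k' hk'
      refine le_trans ?_ (Finset.le_sup (f := fun k' => (Finset.range (l + 1)).sup
        (fun j => T j k')) (b := k') ?_)
      · apply Finset.sup_mono
        intro i hi
        rw [Finset.mem_range] at hi ⊢
        omega
      · rw [Finset.mem_range] at hk' ⊢
        omega
    show k + _ ≤ l + _
    omega
  refine ⟨m, hmono, fun k => Nat.le_add_right _ _, fun x => ?_⟩
  obtain ⟨x', hx', hxx'⟩ := mem_iUnion₂.1 (by rw [hs2]; exact mem_univ x :
    x ∈ ⋃ x ∈ s, Metric.ball x (ρ x))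
  rw [hf] at hx'
  obtain ⟨j, rfl⟩ := hx'
  rw [Metric.mem_ball, dist_eq_norm] at hxx'
  refine ⟨j, ρ (f j) - ‖x - f j‖, by linarith, fun y hy n hn => ?_⟩
  have hTj : T j j ≤ m j := by
    have h1 : T j j ≤ (Finset.range (j + 1)).sup (fun i => T i j) :=
      Finset.le_sup (f := fun i => T i j) (Finset.mem_range.2 (Nat.lt_succ_self j))
    have h2 : (Finset.range (j + 1)).sup (fun i => T i j) ≤ (Finset.range (j + 1)).sup
        (fun k' => (Finset.range (j + 1)).sup (fun i => T i k')) :=
      Finset.le_sup (f := fun k' => (Finset.range (j + 1)).sup (fun i => T i k'))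
        (Finset.mem_range.2 (Nat.lt_succ_self j))
    show T j j ≤ j + _
    omega
  apply hM (f j) ((1 / 2) ^ (j + 4)) (by positivity) (m j) hTj (m n) (hmono hn.le) y
  have h3 := norm_add_le (y - x) (x - f j)
  rw [sub_add_sub_cancel] at h3
  linarith

/-- `H` is small near `0`, large outside of a ball, and depends locally on the coordinates -/
structure Step2 (b : UnconditionalSchauderBasis ℕ ℝ X) (H : X → ℝ) (r R : ℝ) : Prop where
  nonneg : ∀ x, 0 ≤ H x
  le_one : ∀ x, H x ≤ 1
  near : ∀ x, ‖x‖ < r → H x ≤ 1 / 4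
  out : ∀ x, R ≤ ‖x‖ → 3 / 4 ≤ H x
  rpos : 0 < r
  Rpos : 0 < R
  lc : ∀ x, LCat b H x

/-- dependence on coordinates instead of functionals -/
theorem exists_step2 {B : X → ℝ} {R : ℝ} (hB : Step B R) :
    ∃ (H : X → ℝ) (r : ℝ), Step2 b H r R := by
  classical
  obtain ⟨m, hm1, hm2, hm3⟩ := exists_subseq (b := b) hB
  set c : ℕ → ℝ := fun k => 1 / 4 - (1 / 2) ^ (k + 2) with hc
  have hc0 : ∀ k, 0 ≤ c k := by
    intro k
    have h1 : ((1 : ℝ) / 2) ^ k ≤ 1 := pow_le_one₀ (by norm_num) (by norm_num)
    simp only [hc, pow_add]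
    linarith
  have hc1 : ∀ k, c k ≤ 1 / 4 := by
    intro k
    have h1 : (0 : ℝ) < (1 / 2) ^ (k + 2) := by positivity
    simp only [hc]
    linarith
  have hcstep : ∀ k n, k < n → c k + (1 / 2) ^ (k + 4) ≤ c n := by
    intro k n hkn
    have h1 : ((1 : ℝ) / 2) ^ (n + 2) ≤ (1 / 2) ^ (k + 3) :=
      pow_le_pow_of_le_one (by norm_num) (by norm_num) (by omega)
    have h2 : (0 : ℝ) < (1 / 2) ^ k := by positivity
    have e1 : ((1 : ℝ) / 2) ^ (k + 2) = (1 / 2) ^ k * (1 / 4) := by rw [pow_add]; norm_num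
    have e2 : ((1 : ℝ) / 2) ^ (k + 3) = (1 / 2) ^ k * (1 / 8) := by rw [pow_add]; norm_num
    have e3 : ((1 : ℝ) / 2) ^ (k + 4) = (1 / 2) ^ k * (1 / 16) := by rw [pow_add]; norm_num
    simp only [hc]
    rw [e1, e3]
    rw [e2] at h1
    linarith
  set term : ℕ → X → ℝ := fun k x => B (P b (m k) x) - c k with hterm
  have hbdd : ∀ x, BddAbove (range fun k => term k x) := by
    intro x
    refine ⟨1, ?_⟩
    rintro _ ⟨k, rfl⟩
    have := hB.le_one (P b (m k) x)
    have := hc0 k
    simp only [hterm]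
    linarith
  set H : X → ℝ := fun x => ⨆ k, term k x with hH
  have hle : ∀ x k, term k x ≤ H x := fun x k => le_ciSup (hbdd x) k
  obtain ⟨r0, hr0, hr02⟩ := Metric.continuous_iff.1 hB.cont 0 (1 / 4) (by norm_num)
  have hK := K_pos (b := b)
  refine ⟨H, r0 / K b, ?_, ?_, ?_, ?_, by positivity, hB.pos, ?_⟩
  · intro x
    refine le_trans ?_ (hle x 0)
    have h1 : c 0 = 0 := by simp only [hc]; norm_num
    simp only [hterm]
    rw [h1, sub_zero]
    exact hB.nonneg _
  · intro x
    apply ciSup_le
    intro k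
    have := hB.le_one (P b (m k) x)
    have := hc0 k
    simp only [hterm]
    linarith
  · intro x hx
    apply ciSup_le
    intro k
    have h1 : ‖P b (m k) x‖ < r0 := by
      refine (norm_P_le (b := b) _ _).trans_lt ?_
      rw [lt_div_iff₀ hK] at hx
      linarith
    have h2 := hr02 (P b (m k) x) (by rw [dist_zero_right]; exact h1)
    rw [hB.zero, Real.dist_eq, sub_zero] at h2
    have := le_abs_self (B (P b (m k) x))
    have := hc0 k
    simp only [hterm]
    linarith
  · intro x hx
    have hmt : Tendsto m atTop atTop := tendsto_atTop_mono hm2 tendsto_id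
    have h1 : Tendsto (fun k => B (P b (m k) x) - 1 / 4) atTop (𝓝 (B x - 1 / 4)) :=
      ((hB.cont.tendsto x).comp ((tendsto_P x).comp hmt)).sub_const _
    rw [hB.out x hx] at h1
    have h2 : ∀ k, B (P b (m k) x) - 1 / 4 ≤ H x := by
      intro k
      refine le_trans ?_ (hle x k)
      have := hc1 k
      simp only [hterm]
      linarith
    have h3 := le_of_tendsto' h1 h2
    linarith
  · intro x
    obtain ⟨k, ρ, hρ, hk⟩ := hm3 x
    refine ⟨m k, ρ, hρ, ?_⟩
    have key : ∀ y z : X, ‖y - x‖ < ρ → ‖z - x‖ < ρ →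
        (∀ i, i < m k → b.coord i y = b.coord i z) → H y ≤ H z := by
      intro y z hy hz hyz
      have hP : ∀ n, n ≤ k → P b (m n) y = P b (m n) z := by
        intro n hn
        apply ext_coord (b := b)
        intro i
        rw [coord_P, coord_P]
        split
        · next h => exact hyz i (lt_of_lt_of_le h (hm1 hn))
        · rfl
      have hsmall : ∀ n, n ≤ k → term n y ≤ H z := by
        intro n hn
        refine le_trans (le_of_eq ?_) (hle z n)
        simp only [hterm]
        rw [hP n hn]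
      apply ciSup_le
      intro n
      rcases le_or_gt n k with hn | hn
      · exact hsmall n hn
      · refine le_trans ?_ (hsmall k le_rfl)
        have h1 := hk y hy n hn
        have h2 := hcstep k n hn
        have h3 := le_abs_self (B (P b (m n) y) - B (P b (m k) y))
        simp only [hterm]
        linarith
    intro y z hy hz hyz
    exact le_antisymm (key y z hy hz hyz) (key z y hz hy (fun i hi => (hyz i hi).symm))

/-! ### the solid hull -/

/-- the solid hull of `H` -/
noncomputable def sol (b : UnconditionalSchauderBasis ℕ ℝ X) (H : X → ℝ) (x : X) : ℝ :=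
  ⨆ y : {y : X // Dom b y x}, H y.1

section sol

variable {H : X → ℝ} {r R : ℝ}

lemma bdd_sol (hH : Step2 b H r R) (x : X) :
    BddAbove (range fun y : {y : X // Dom b y x} => H y.1) :=
  ⟨1, by rintro _ ⟨y, rfl⟩; exact hH.le_one _⟩

lemma le_sol (hH : Step2 b H r R) {x y : X} (h : Dom b y x) : H y ≤ sol b H x :=
  le_ciSup (bdd_sol hH x) ⟨y, h⟩

lemma sol_le {x : X} {s : ℝ} (h : ∀ y, Dom b y x → H y ≤ s) : sol b H x ≤ s := by
  haveI : Nonempty {y : X // Dom b y x} := ⟨⟨x, Dom.refl x⟩⟩
  exact ciSup_le (fun y => h y.1 y.2)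

lemma sol_mono (hH : Step2 b H r R) {x x' : X} (h : Dom b x x') : sol b H x ≤ sol b H x' :=
  sol_le (fun _ hy => le_sol hH (hy.trans h))

lemma step2_sol (hH : Step2 b H r R) : Step2 b (sol b H) (r / K b) R := by
  have hK := K_pos (b := b)
  refine ⟨fun x => ?_, fun x => sol_le (fun y _ => hH.le_one y), fun x hx => ?_, fun x hx => ?_,
    div_pos hH.rpos hK, hH.Rpos, fun x => ?_⟩
  · exact (hH.nonneg x).trans (le_sol hH (Dom.refl x))
  · apply sol_le
    intro y hy
    apply hH.near
    refine hy.norm_le.trans_lt ?_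
    rw [lt_div_iff₀ hK] at hx
    linarith
  · exact (hH.out x hx).trans (le_sol hH (Dom.refl x))
  · obtain ⟨m0, δ, hδ, hu⟩ := LCat.uniform (isCompact_interval (b := b) x) (fun y _ => hH.lc y)
    obtain ⟨m1, hm1⟩ : ∃ m1, ∀ m, m1 ≤ m → ‖x - P b m x‖ < δ / (8 * K b) := by
      obtain ⟨N, hN⟩ := Metric.tendsto_atTop.1 (tendsto_P (b := b) x) (δ / (8 * K b))
        (by positivity)
      exact ⟨N, fun m hm => by have := hN m hm; rwa [dist_comm, dist_eq_norm] at this⟩
    set m := max m0 m1 with hm
    refine ⟨m, δ / (8 * K b ^ 2), by positivity, ?_⟩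
    have key : ∀ y z : X, ‖y - x‖ < δ / (8 * K b ^ 2) → ‖z - x‖ < δ / (8 * K b ^ 2) →
        (∀ i, i < m → b.coord i y = b.coord i z) → sol b H y ≤ sol b H z := by
      intro y z hy _ hyz
      apply sol_le
      intro u hu'
      -- replace `u` by its truncation
      have hPu : Dom b (P b m u) z := by
        intro i
        rw [coord_P]
        split
        · next hi => rw [← hyz i hi]; exact hu' i
        · rw [abs_zero]; exact abs_nonneg _
      have hHu : H u = H (P b m u) := by
        obtain ⟨v, hv1, hv2⟩ := exists_clamp (b := b) x hu'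
        have hK1 := one_le_K (b := b)
        have h1 : K b * ‖y - x‖ < δ / (8 * K b) := by
          have := mul_lt_mul_of_pos_left hy hK
          have e : K b * (δ / (8 * K b ^ 2)) = δ / (8 * K b) := by field_simp
          linarith
        have h2 : δ / (8 * K b) ≤ δ / 8 := by
          apply div_le_div_of_nonneg_left hδ.le (by norm_num)
          linarith
        have h3 : ‖u - P b m u‖ < δ / 4 := by
          have h4 : Dom b (u - P b m u) (y - P b m y) := by
            intro i
            rw [map_sub, map_sub, coord_P, coord_P]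
            split
            · rw [sub_self, sub_self]
            · rw [sub_zero, sub_zero]; exact hu' i
          have h5 := h4.norm_le
          have h6 : ‖y - P b m y‖ ≤ K b * ‖y - x‖ + ‖x - P b m x‖ := by
            have h7 : y - P b m y = ((y - x) - P b m (y - x)) + (x - P b m x) := by
              rw [map_sub]; abel
            rw [h7]
            refine (norm_add_le _ _).trans ?_
            linarith [norm_Q_le (b := b) m (y - x)]
          have h8 := hm1 m (le_max_right _ _)
          have h9 : K b * ‖y - P b m y‖ ≤ K b * (K b * ‖y - x‖ + ‖x - P b m x‖) :=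
            mul_le_mul_of_nonneg_left h6 hK.le
          have h10 : K b * (K b * ‖y - x‖ + ‖x - P b m x‖) <
              K b * (δ / (8 * K b) + δ / (8 * K b)) :=
            mul_lt_mul_of_pos_left (by linarith) hK
          have h11 : K b * (δ / (8 * K b) + δ / (8 * K b)) = δ / 4 := by field_simp; norm_num
          linarith
        apply hu v hv1 u (P b m u)
        · linarith
        · have h12 := norm_add_le (P b m u - u) (u - v)
          rw [sub_add_sub_cancel] at h12
          have h13 : ‖P b m u - u‖ = ‖u - P b m u‖ := norm_sub_rev _ _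
          linarith
        · intro i hi
          rw [coord_P, if_pos (lt_of_lt_of_le hi (le_max_left _ _))]
      rw [hHu]
      exact le_sol hH hPu
    intro y z hy hz hyz
    exact le_antisymm (key y z hy hz hyz) (key z y hz hy (fun i hi => (hyz i hi).symm))

end sol

/-! ### the gauge -/

/-- homogeneous solid gauges, equivalent to the norm, which depend locally on finitely many
coordinates off `0` -/
structure Gauge (b : UnconditionalSchauderBasis ℕ ℝ X) (G : X → ℝ) (α β : ℝ) : Prop where
  αpos : 0 < α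
  βpos : 0 < β
  lower : ∀ x, α * ‖x‖ ≤ G x
  upper : ∀ x, G x ≤ β * ‖x‖
  smul : ∀ (t : ℝ) x, G (t • x) = |t| * G x
  mono : ∀ x y, Dom b x y → G x ≤ G y
  lc : ∀ x, x ≠ 0 → LCat b G x

/-- the homogeneous gauge of `H` -/
noncomputable def gau (H : X → ℝ) (x : X) : ℝ :=
  ⨆ t : Ioi (0 : ℝ), max 0 (H (t.1 • x) - 1 / 4) / t.1

section gau

variable {H : X → ℝ} {r R : ℝ}

omit [CompleteSpace X] in
lemma term_gau_le (hH : Step2 b H r R) (x : X) {t : ℝ} (ht : 0 < t) :
    max 0 (H (t • x) - 1 / 4) / t ≤ ‖x‖ / r := by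
  have hr := hH.rpos
  rcases lt_or_ge ‖t • x‖ r with h | h
  · rw [max_eq_left (by linarith [hH.near _ h]), zero_div]
    positivity
  · rw [norm_smul, Real.norm_of_nonneg ht.le] at h
    have h1 : max 0 (H (t • x) - 1 / 4) ≤ 1 :=
      max_le zero_le_one (by linarith [hH.le_one (t • x)])
    rw [div_le_div_iff₀ ht hr]
    calc max 0 (H (t • x) - 1 / 4) * r ≤ 1 * r := mul_le_mul_of_nonneg_right h1 hr.le
      _ ≤ ‖x‖ * t := by linarith

omit [CompleteSpace X] in
lemma bdd_gau (hH : Step2 b H r R) (x : X) :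
    BddAbove (range fun t : Ioi (0 : ℝ) => max 0 (H (t.1 • x) - 1 / 4) / t.1) :=
  ⟨‖x‖ / r, by rintro _ ⟨t, rfl⟩; exact term_gau_le hH x t.2⟩

omit [CompleteSpace X] in
lemma le_gau (hH : Step2 b H r R) (x : X) {t : ℝ} (ht : 0 < t) :
    max 0 (H (t • x) - 1 / 4) / t ≤ gau H x := le_ciSup (bdd_gau hH x) ⟨t, ht⟩

omit [CompleteSpace X] in
lemma gau_le {x : X} {s : ℝ} (h : ∀ t : ℝ, 0 < t → max 0 (H (t • x) - 1 / 4) / t ≤ s) :
    gau H x ≤ s := by
  haveI : Nonempty (Ioi (0 : ℝ)) := ⟨⟨1, Set.mem_Ioi.2 one_pos⟩⟩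
  exact ciSup_le (fun t => h t.1 t.2)

omit [CompleteSpace X] in
lemma gau_nonneg (hH : Step2 b H r R) (x : X) : 0 ≤ gau H x :=
  le_trans (by positivity) (le_gau hH x one_pos)

omit [CompleteSpace X] in
lemma gau_lower (hH : Step2 b H r R) (x : X) : (2 * R)⁻¹ * ‖x‖ ≤ gau H x := by
  have hR := hH.Rpos
  rcases eq_or_ne x 0 with h0 | h0
  · rw [h0, norm_zero, mul_zero]
    exact gau_nonneg hH _
  · have hn : 0 < ‖x‖ := norm_pos_iff.2 h0
    refine le_trans ?_ (le_gau hH x (t := R / ‖x‖) (by positivity))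
    have h1 := hH.out ((R / ‖x‖) • x) (by
      rw [norm_smul, Real.norm_of_nonneg (by positivity), div_mul_cancel₀ _ hn.ne'])
    have h2 : 1 / 2 ≤ max 0 (H ((R / ‖x‖) • x) - 1 / 4) := le_max_of_le_right (by linarith)
    rw [le_div_iff₀ (by positivity)]
    have e : (2 * R)⁻¹ * ‖x‖ * (R / ‖x‖) = 1 / 2 := by field_simp
    rw [e]
    exact h2

/-- the gauge -/
theorem gauge_gau (hH : Step2 b H r R) (hmono : ∀ x y, Dom b x y → H x ≤ H y) :
    Gauge b (gau H) (2 * R)⁻¹ r⁻¹ := by
  have hR := hH.Rpos
  have hr := hH.rpos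
  have hK := K_pos (b := b)
  have hmono' : ∀ x y, Dom b x y → gau H x ≤ gau H y := by
    intro x y hxy
    apply gau_le
    intro t ht
    refine le_trans ?_ (le_gau hH y ht)
    apply div_le_div_of_nonneg_right _ ht.le
    apply max_le_max_left
    have h1 : Dom b (t • x) (t • y) := by
      intro i
      rw [map_smul, map_smul, smul_eq_mul, smul_eq_mul, abs_mul, abs_mul]
      exact mul_le_mul_of_nonneg_left (hxy i) (abs_nonneg _)
    linarith [hmono _ _ h1]
  have hsmul' : ∀ (t : ℝ), 0 < t → ∀ x, gau H (t • x) ≤ t * gau H x := by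
    intro t ht x
    apply gau_le
    intro s hs
    have h1 := le_gau hH x (t := s * t) (by positivity)
    rw [smul_smul]
    calc max 0 (H ((s * t) • x) - 1 / 4) / s = t * (max 0 (H ((s * t) • x) - 1 / 4) / (s * t)) := by
          field_simp
      _ ≤ t * gau H x := mul_le_mul_of_nonneg_left h1 ht.le
  have hsmul : ∀ (t : ℝ), 0 < t → ∀ x, gau H (t • x) = t * gau H x := by
    intro t ht x
    apply le_antisymm (hsmul' t ht x)
    have h1 := hsmul' t⁻¹ (inv_pos.2 ht) (t • x)
    rw [smul_smul, inv_mul_cancel₀ ht.ne', one_smul] at h1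
    have h2 := mul_le_mul_of_nonneg_left h1 ht.le
    rwa [← mul_assoc, mul_inv_cancel₀ ht.ne', one_mul] at h2
  have hupper : ∀ x, gau H x ≤ r⁻¹ * ‖x‖ := by
    intro x
    apply gau_le
    intro t ht
    have := term_gau_le hH x ht
    rwa [div_eq_inv_mul ‖x‖ r] at this
  refine ⟨by positivity, by positivity, gau_lower hH, hupper, ?_, hmono', ?_⟩
  · intro t x
    rcases eq_or_ne t 0 with h0 | h0
    · rw [h0, zero_smul, abs_zero, zero_mul]
      have h1 := hupper 0
      rw [norm_zero, mul_zero] at h1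
      exact le_antisymm h1 (gau_nonneg hH _)
    · have h1 : gau H (t • x) = gau H (|t| • x) := by
        apply le_antisymm
        · apply hmono'
          intro i
          rw [map_smul, map_smul, smul_eq_mul, smul_eq_mul, abs_mul, abs_mul, abs_abs]
        · apply hmono'
          intro i
          rw [map_smul, map_smul, smul_eq_mul, smul_eq_mul, abs_mul, abs_mul, abs_abs]
      rw [h1, hsmul _ (abs_pos.2 h0)]
  · intro x hx
    have hn : 0 < ‖x‖ := norm_pos_iff.2 hx
    set a : ℝ := r / (2 * ‖x‖) with ha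
    set d : ℝ := 4 * R / ‖x‖ with hd
    have ha0 : 0 < a := by positivity
    have hd0 : 0 < d := by positivity
    have hcomp : IsCompact ((fun t : ℝ => t • x) '' Icc a d) :=
      isCompact_Icc.image (by fun_prop)
    obtain ⟨m, δ, hδ, hu⟩ := LCat.uniform (b := b) hcomp (fun y _ => hH.lc y)
    refine ⟨m, min (‖x‖ / 2) (δ / d), by positivity, ?_⟩
    have key : ∀ y z : X, ‖y - x‖ < min (‖x‖ / 2) (δ / d) → ‖z - x‖ < min (‖x‖ / 2) (δ / d) →
        (∀ i, i < m → b.coord i y = b.coord i z) → gau H y ≤ gau H z := by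
      intro y z hy hz hyz
      have hy1 := hy.trans_le (min_le_left _ _)
      have hy2 := hy.trans_le (min_le_right _ _)
      have hz1 := hz.trans_le (min_le_left _ _)
      have hz2 := hz.trans_le (min_le_right _ _)
      have hyn : ‖y‖ < 2 * ‖x‖ := by
        have := norm_add_le (y - x) x
        rw [sub_add_cancel] at this
        linarith
      have hzn : ‖x‖ / 2 < ‖z‖ := by
        have := norm_sub_le z (z - x)
        rw [sub_sub_cancel] at this
        linarith
      apply gau_le
      intro t ht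
      rcases lt_or_ge t a with h1 | h1
      · have h2 : ‖t • y‖ < r := by
          rw [norm_smul, Real.norm_of_nonneg ht.le]
          have h3 : t * ‖y‖ ≤ a * ‖y‖ := mul_le_mul_of_nonneg_right h1.le (norm_nonneg _)
          have h4 : a * ‖y‖ < a * (2 * ‖x‖) := mul_lt_mul_of_pos_left hyn ha0
          have h5 : a * (2 * ‖x‖) = r := by rw [ha]; field_simp
          linarith
        rw [max_eq_left (by linarith [hH.near _ h2]), zero_div]
        exact gau_nonneg hH _
      · rcases le_or_gt t d with h2 | h2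
        · have h3 : H (t • y) = H (t • z) := by
            apply hu (t • x) ⟨t, ⟨h1, h2⟩, rfl⟩
            · rw [← smul_sub, norm_smul, Real.norm_of_nonneg ht.le]
              rw [lt_div_iff₀ hd0] at hy2
              have : t * ‖y - x‖ ≤ d * ‖y - x‖ := mul_le_mul_of_nonneg_right h2 (norm_nonneg _)
              linarith
            · rw [← smul_sub, norm_smul, Real.norm_of_nonneg ht.le]
              rw [lt_div_iff₀ hd0] at hz2
              have : t * ‖z - x‖ ≤ d * ‖z - x‖ := mul_le_mul_of_nonneg_right h2 (norm_nonneg _)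
              linarith
            · intro i hi
              rw [map_smul, map_smul, hyz i hi]
          rw [h3]
          exact le_gau hH z ht
        · refine le_trans ?_ (gau_lower hH z)
          have h3 : max 0 (H (t • y) - 1 / 4) ≤ 1 :=
            max_le zero_le_one (by linarith [hH.le_one (t • y)])
          calc max 0 (H (t • y) - 1 / 4) / t ≤ 1 / t := div_le_div_of_nonneg_right h3 ht.le
            _ ≤ 1 / d := one_div_le_one_div_of_le hd0 h2.le
            _ = (2 * R)⁻¹ * (‖x‖ / 2) := by rw [hd]; field_simp; norm_num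
            _ ≤ (2 * R)⁻¹ * ‖z‖ := mul_le_mul_of_nonneg_left hzn.le (by positivity)
    intro y z hy hz hyz
    exact le_antisymm (key y z hy hz hyz) (key z y hz hy (fun i hi => (hyz i hi).symm))

end gau

/-- A bump function which locally depends on finitely many coordinates gives a gauge. -/
theorem exists_gauge (b : UnconditionalSchauderBasis ℕ ℝ X)
    (h : Pool.Agent.LibOrlicz.HasLFCBump X) : ∃ (G : X → ℝ) (α β : ℝ), Gauge b G α β := by
  obtain ⟨B, R, hB⟩ := exists_step h
  obtain ⟨H, r, hH⟩ := exists_step2 (b := b) hB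
  exact ⟨gau (sol b H), _, _, gauge_gau (step2_sol hH) (fun x y hxy => sol_mono hH hxy)⟩

end Pool.Agent.LibPNormLFC
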