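import Pool.Agent.Lib_MP_b3cab1_pn.Gauge
import Pool.Agent.Lib_MP_b3cab1_pn.Defs

set_option autoImplicit false

/-!
# The `p`-norms
-/

open Filter Topology Set

namespace Pool.Agent.LibPNormLFC

variable {X : Type} [NormedAddCommGroup X] [NormedSpace ℝ X]
  {b : UnconditionalSchauderBasis ℕ ℝ X}

/-! ### lists of vectors -/

/-- `|x| ≤ ∑ |u|`, coordinatewise -/
def DomL (b : UnconditionalSchauderBasis ℕ ℝ X) (x : X) (l : List X) : Prop :=
  ∀ i, |b.coord i x| ≤ (l.map (fun u => |b.coord i u|)).sum

/-- the cost of a list -/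
noncomputable def cst (G : X → ℝ) (p : ℝ) (l : List X) : ℝ := (l.map (fun u => G u ^ p)).sum

lemma domL_nil : DomL b 0 [] := by
  intro i
  simp

lemma domL_single (x : X) : DomL b x [x] := by
  intro i
  simp

lemma DomL.of_dom {x y : X} {l : List X} (h : Dom b x y) (h' : DomL b y l) : DomL b x l :=
  fun i => (h i).trans (h' i)

lemma DomL.append {x y : X} {l l' : List X} (h : DomL b x l) (h' : DomL b y l') :
    DomL b (x + y) (l ++ l') := by
  intro i
  rw [List.map_append, List.sum_append, map_add]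
  exact (abs_add_le _ _).trans (add_le_add (h i) (h' i))

lemma cst_append (G : X → ℝ) (p : ℝ) (l l' : List X) :
    cst G p (l ++ l') = cst G p l + cst G p l' := by
  unfold cst
  rw [List.map_append, List.sum_append]

lemma DomL.smul {x : X} {l : List X} (h : DomL b x l) (t : ℝ) :
    DomL b (t • x) (l.map (fun u => t • u)) := by
  intro i
  rw [List.map_map]
  have h1 : (l.map ((fun u => |b.coord i u|) ∘ fun u => t • u)).sum =
      |t| * (l.map (fun u => |b.coord i u|)).sum := by
    rw [← List.sum_map_mul_left]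
    congr 1
    apply List.map_congr_left
    intro u _
    simp only [Function.comp, map_smul, smul_eq_mul, abs_mul]
  rw [h1, map_smul, smul_eq_mul, abs_mul]
  exact mul_le_mul_of_nonneg_left (h i) (abs_nonneg _)

/-- a number below a sum is below the sum of the truncated terms -/
lemma le_sum_min {ι : Type} (l : List ι) (f : ι → ℝ) (hf : ∀ u ∈ l, 0 ≤ f u) {a : ℝ} (ha : 0 ≤ a)
    (h : a ≤ (l.map f).sum) : a ≤ (l.map (fun u => min (f u) a)).sum := by
  have key : ∀ l : List ι, (∀ u ∈ l, 0 ≤ f u) →
      min (l.map f).sum a ≤ (l.map (fun u => min (f u) a)).sum := by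
    intro l
    induction l with
    | nil => intro _; simp [ha]
    | cons u l ih =>
      intro hl
      have h1 := ih (fun v hv => hl v (List.mem_cons_of_mem _ hv))
      have h2 := hl u (List.mem_cons_self)
      have h3 : 0 ≤ (l.map f).sum := List.sum_nonneg (by
        intro c hc
        obtain ⟨v, hv, rfl⟩ := List.mem_map.1 hc
        exact hl v (List.mem_cons_of_mem _ hv))
      simp only [List.map_cons, List.sum_cons]
      have h4 : min (f u + (l.map f).sum) a ≤ min (f u) a + min (l.map f).sum a := by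
        rcases le_total (f u) a with h5 | h5
        · rcases le_total (l.map f).sum a with h6 | h6
          · rw [min_eq_left h5, min_eq_left h6]
            exact min_le_left _ _
          · rw [min_eq_left h5, min_eq_right h6]
            exact (min_le_right _ _).trans (by linarith)
        · rw [min_eq_right h5]
          have : 0 ≤ min (l.map f).sum a := le_min h3 ha
          exact (min_le_right _ _).trans (by linarith)
      linarith
  have h1 := key l hf
  rwa [min_eq_right h] at h1

/-- `ℓ_p` against `ℓ_1` -/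
lemma rpow_sum_le {p : ℝ} (hp : 0 < p) (hp1 : p ≤ 1) (l : List ℝ) (h : ∀ a ∈ l, 0 ≤ a) :
    l.sum ^ p ≤ (l.map (fun a => a ^ p)).sum := by
  induction l with
  | nil => simp [Real.zero_rpow hp.ne']
  | cons a l ih =>
    have h1 := ih (fun c hc => h c (List.mem_cons_of_mem _ hc))
    have h2 := h a (List.mem_cons_self)
    have h3 : 0 ≤ l.sum := List.sum_nonneg (fun c hc => h c (List.mem_cons_of_mem _ hc))
    rw [List.sum_cons, List.map_cons, List.sum_cons]
    exact (Real.rpow_add_le_add_rpow h2 h3 hp.le hp1).trans (by linarith)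

variable [CompleteSpace X]

/-- the vector `∑ |u|` -/
lemma exists_sum_abs (l : List X) : ∃ v : X, (∀ i, b.coord i v =
    (l.map (fun u => |b.coord i u|)).sum) ∧ ‖v‖ ≤ K b * (l.map (fun u => ‖u‖)).sum := by
  induction l with
  | nil => exact ⟨0, fun i => by simp, by simp⟩
  | cons u l ih =>
    obtain ⟨v, hv1, hv2⟩ := ih
    obtain ⟨w, hw⟩ := exists_vec (b := b) u (fun i => |b.coord i u|) (fun i => by rw [abs_abs])
    refine ⟨w + v, fun i => ?_, ?_⟩
    · rw [map_add, hw, hv1, List.map_cons, List.sum_cons]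
    · have h1 : Dom b w u := fun i => by rw [hw, abs_abs]
      rw [List.map_cons, List.sum_cons, mul_add]
      exact (norm_add_le _ _).trans (add_le_add h1.norm_le hv2)

lemma DomL.norm_le {x : X} {l : List X} (h : DomL b x l) :
    ‖x‖ ≤ K b ^ 2 * (l.map (fun u => ‖u‖)).sum := by
  obtain ⟨v, hv1, hv2⟩ := exists_sum_abs (b := b) l
  have h1 : Dom b x v := fun i => by
    rw [hv1]
    exact (h i).trans (le_abs_self _)
  have h2 := h1.norm_le
  have h3 := mul_le_mul_of_nonneg_left hv2 (K_pos (b := b)).le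
  rw [← mul_assoc, ← pow_two] at h3
  exact h2.trans h3

/-! ### the functional `TT` -/

/-- the infimum of the costs of the lists which dominate `x` -/
noncomputable def TT (b : UnconditionalSchauderBasis ℕ ℝ X) (G : X → ℝ) (p : ℝ) (x : X) : ℝ :=
  ⨅ l : {l : List X // DomL b x l}, cst G p l.1

section

variable {G : X → ℝ} {α β p : ℝ}

lemma Gauge.nonneg (hG : Gauge b G α β) (x : X) : 0 ≤ G x :=
  (mul_nonneg hG.αpos.le (norm_nonneg _)).trans (hG.lower x)

lemma cst_nonneg (hG : Gauge b G α β) (l : List X) : 0 ≤ cst G p l :=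
  List.sum_nonneg (by
    intro c hc
    obtain ⟨v, _, rfl⟩ := List.mem_map.1 hc
    exact Real.rpow_nonneg (hG.nonneg v) _)

lemma TT_le (hG : Gauge b G α β) {x : X} {l : List X} (h : DomL b x l) : TT b G p x ≤ cst G p l :=
  ciInf_le (f := fun l : {l : List X // DomL b x l} => cst G p l.1)
    ⟨0, by rintro _ ⟨l, rfl⟩; exact cst_nonneg hG _⟩ ⟨l, h⟩

lemma le_TT {x : X} {s : ℝ} (h : ∀ l, DomL b x l → s ≤ cst G p l) : s ≤ TT b G p x := by
  haveI : Nonempty {l : List X // DomL b x l} := ⟨⟨[x], domL_single x⟩⟩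
  exact le_ciInf (fun l => h l.1 l.2)

lemma TT_nonneg (hG : Gauge b G α β) (x : X) : 0 ≤ TT b G p x := le_TT (fun l _ => cst_nonneg hG l)

lemma TT_le_G (hG : Gauge b G α β) (x : X) : TT b G p x ≤ G x ^ p := by
  refine (TT_le hG (domL_single x)).trans (le_of_eq ?_)
  unfold cst
  simp

lemma TT_mono (hG : Gauge b G α β) {x y : X} (h : Dom b x y) : TT b G p x ≤ TT b G p y :=
  le_TT (fun _ hl => TT_le hG (DomL.of_dom h hl))

lemma TT_add_le (hG : Gauge b G α β) (x y : X) :
    TT b G p (x + y) ≤ TT b G p x + TT b G p y := by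
  have h1 : ∀ l, DomL b x l → TT b G p (x + y) - cst G p l ≤ TT b G p y := by
    intro l hl
    apply le_TT
    intro l' hl'
    have := TT_le (p := p) hG (hl.append hl')
    rw [cst_append] at this
    linarith
  have h2 : TT b G p (x + y) - TT b G p y ≤ TT b G p x := by
    apply le_TT
    intro l hl
    linarith [h1 l hl]
  linarith

lemma TT_zero (hG : Gauge b G α β) : TT b G p 0 = 0 := by
  apply le_antisymm _ (TT_nonneg hG _)
  refine (TT_le hG domL_nil).trans (le_of_eq ?_)
  unfold cst
  simp

lemma TT_smul_le (hG : Gauge b G α β) {t : ℝ} (ht : t ≠ 0) (x : X) :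
    TT b G p (t • x) ≤ |t| ^ p * TT b G p x := by
  have ht0 : 0 < |t| ^ p := Real.rpow_pos_of_pos (abs_pos.2 ht) _
  rw [← div_le_iff₀' ht0]
  apply le_TT
  intro l hl
  rw [div_le_iff₀' ht0]
  refine (TT_le hG (hl.smul t)).trans (le_of_eq ?_)
  unfold cst
  rw [List.map_map, ← List.sum_map_mul_left]
  congr 1
  apply List.map_congr_left
  intro u _
  simp only [Function.comp]
  rw [hG.smul, Real.mul_rpow (abs_nonneg _) (hG.nonneg u)]

lemma TT_smul (hG : Gauge b G α β) (hp : 0 < p) (t : ℝ) (x : X) :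
    TT b G p (t • x) = |t| ^ p * TT b G p x := by
  rcases eq_or_ne t 0 with h0 | h0
  · rw [h0, zero_smul, TT_zero hG, abs_zero, Real.zero_rpow hp.ne', zero_mul]
  · apply le_antisymm (TT_smul_le hG h0 x)
    have h1 := TT_smul_le (p := p) hG (inv_ne_zero h0) (t • x)
    rw [smul_smul, inv_mul_cancel₀ h0, one_smul, abs_inv,
      Real.inv_rpow (abs_nonneg _)] at h1
    have ht0 : 0 < |t| ^ p := Real.rpow_pos_of_pos (abs_pos.2 h0) _
    have h2 := mul_le_mul_of_nonneg_left h1 ht0.le
    rwa [← mul_assoc, mul_inv_cancel₀ ht0.ne', one_mul] at h2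

lemma sum_G_ge (hG : Gauge b G α β) {x : X} {l : List X} (h : DomL b x l) :
    α / K b ^ 2 * ‖x‖ ≤ (l.map G).sum := by
  have hK := K_pos (b := b)
  have hα := hG.αpos
  have h1 := h.norm_le
  have h2 : α * (l.map (fun u => ‖u‖)).sum ≤ (l.map G).sum := by
    rw [← List.sum_map_mul_left]
    apply List.sum_le_sum
    intro u _
    exact hG.lower u
  calc α / K b ^ 2 * ‖x‖ ≤ α / K b ^ 2 * (K b ^ 2 * (l.map (fun u => ‖u‖)).sum) :=
        mul_le_mul_of_nonneg_left h1 (by positivity)
    _ = α * (l.map (fun u => ‖u‖)).sum := by field_simp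
    _ ≤ _ := h2

lemma TT_ge (hG : Gauge b G α β) (hp : 0 < p) (hp1 : p ≤ 1) (x : X) :
    (α / K b ^ 2 * ‖x‖) ^ p ≤ TT b G p x := by
  have hK := K_pos (b := b)
  have hα := hG.αpos
  apply le_TT
  intro l hl
  have h1 := sum_G_ge hG hl
  refine (Real.rpow_le_rpow (by positivity) h1 hp.le).trans ?_
  have h2 := rpow_sum_le hp hp1 (l.map G) (by
    intro a ha
    obtain ⟨v, _, rfl⟩ := List.mem_map.1 ha
    exact hG.nonneg v)
  rw [List.map_map] at h2
  exact h2

/-- a list may be cut down to the order interval of `y` -/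
lemma exists_normal (hG : Gauge b G α β) (hp : 0 < p) {y : X} {l : List X} (h : DomL b y l) :
    ∃ l' : List X, DomL b y l' ∧ (∀ u ∈ l', Dom b u y) ∧ cst G p l' ≤ cst G p l := by
  classical
  have hvec : ∀ u : X, ∃ v : X, ∀ i, b.coord i v = min |b.coord i u| |b.coord i y| := fun u =>
    exists_vec (b := b) y _ (fun i => by
      rw [abs_of_nonneg (le_min (abs_nonneg _) (abs_nonneg _))]
      exact min_le_right _ _)
  choose τ hτ using hvec
  refine ⟨l.map τ, fun i => ?_, fun u hu => ?_, ?_⟩
  · have h1 := le_sum_min l (fun u => |b.coord i u|) (fun u _ => abs_nonneg _)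
      (abs_nonneg (b.coord i y)) (h i)
    refine h1.trans (le_of_eq ?_)
    rw [List.map_map]
    congr 1
    apply List.map_congr_left
    intro u _
    have h0 : 0 ≤ min |b.coord i u| |b.coord i y| := le_min (abs_nonneg _) (abs_nonneg _)
    simp only [Function.comp]
    rw [hτ, abs_of_nonneg h0]
  · obtain ⟨v, _, rfl⟩ := List.mem_map.1 hu
    intro i
    rw [hτ, abs_of_nonneg (le_min (abs_nonneg _) (abs_nonneg _))]
    exact min_le_right _ _
  · unfold cst
    rw [List.map_map]
    apply List.sum_le_sum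
    intro u _
    apply Real.rpow_le_rpow (hG.nonneg _) _ hp.le
    apply hG.mono
    intro i
    have h0 : 0 ≤ min |b.coord i u| |b.coord i y| := le_min (abs_nonneg _) (abs_nonneg _)
    rw [hτ, abs_of_nonneg h0]
    exact min_le_left _ _

/-- a list with bounded cost has a large element -/
lemma exists_large (hG : Gauge b G α β) (hp : 0 < p) {A B c : ℝ} (hA : 0 < A) (hB : 0 < B)
    (hc : 0 < c) (hc1 : c ^ (1 - p) ≤ B / (2 * A)) (hp1 : p < 1) {l : List X}
    (h1 : cst G p l ≤ A) (h2 : B ≤ (l.map G).sum) : ∃ u ∈ l, c ≤ G u := by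
  by_contra hcon
  push Not at hcon
  have h3 : (l.map G).sum ≤ B / (2 * A) * cst G p l := by
    unfold cst
    rw [← List.sum_map_mul_left]
    apply List.sum_le_sum
    intro u hu
    have h4 := hcon u hu
    have h5 := hG.nonneg u
    rcases h5.eq_or_lt with h6 | h6
    · rw [← h6, Real.zero_rpow hp.ne', mul_zero]
    · have h7 : G u = G u ^ (1 - p) * G u ^ p := by
        rw [← Real.rpow_add h6]
        norm_num
      have h8 : G u ^ (1 - p) ≤ c ^ (1 - p) := Real.rpow_le_rpow h5 h4.le (by linarith)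
      have h9 : 0 ≤ G u ^ p := Real.rpow_nonneg h5 _
      calc G u = G u ^ (1 - p) * G u ^ p := h7
        _ ≤ B / (2 * A) * G u ^ p := mul_le_mul_of_nonneg_right (h8.trans hc1) h9
  have h4 : B / (2 * A) * cst G p l ≤ B / (2 * A) * A :=
    mul_le_mul_of_nonneg_left h1 (by positivity)
  have h5 : B / (2 * A) * A = B / 2 := by field_simp
  linarith

theorem lc_TT (hG : Gauge b G α β) (hp : 0 < p) (hp1 : p < 1) (x : X) (hx : x ≠ 0) :
    LCat b (TT b G p) x := by
  have hK := K_pos (b := b)
  have hK1 := one_le_K (b := b)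
  have hα := hG.αpos
  have hβ := hG.βpos
  have hn : 0 < ‖x‖ := norm_pos_iff.2 hx
  set A : ℝ := (β * (‖x‖ + 1)) ^ p + 1 with hA
  have hA0 : 0 < A := by
    have : 0 ≤ (β * (‖x‖ + 1)) ^ p := Real.rpow_nonneg (by positivity) _
    linarith
  set B : ℝ := α / K b ^ 2 * (‖x‖ / 2) with hB
  have hB0 : 0 < B := by positivity
  set c : ℝ := (B / (2 * A)) ^ ((1 - p)⁻¹) with hc
  have hc0 : 0 < c := Real.rpow_pos_of_pos (by positivity) _
  have hc1 : c ^ (1 - p) ≤ B / (2 * A) := by
    rw [hc, ← Real.rpow_mul (by positivity), inv_mul_cancel₀ (by linarith), Real.rpow_one]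
  -- the compact set
  have hcomp : IsCompact ({v : X | Dom b v x} ∩ {v : X | c / (2 * β) ≤ ‖v‖}) :=
    (isCompact_interval (b := b) x).inter_right (isClosed_le continuous_const continuous_norm)
  obtain ⟨m0, δ, hδ, hu⟩ := LCat.uniform (b := b) (H := G) hcomp (fun v hv => hG.lc v (by
    intro h0
    have h1 : c / (2 * β) ≤ ‖v‖ := hv.2
    rw [h0, norm_zero] at h1
    have : 0 < c / (2 * β) := by positivity
    linarith))
  obtain ⟨m1, hm1⟩ : ∃ m1, ∀ m, m1 ≤ m → ‖x - P b m x‖ < δ / (8 * K b) := by
    obtain ⟨N, hN⟩ := Metric.tendsto_atTop.1 (tendsto_P (b := b) x) (δ / (8 * K b))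
      (by positivity)
    exact ⟨N, fun m hm => by have := hN m hm; rwa [dist_comm, dist_eq_norm] at this⟩
  set m := max m0 m1 with hm
  set ρ : ℝ := min (min 1 (‖x‖ / 2)) (min (c / (2 * β) / K b) (δ / (8 * K b ^ 2))) with hρ
  refine ⟨m, ρ, by positivity, ?_⟩
  have key : ∀ y z : X, ‖y - x‖ < ρ → ‖z - x‖ < ρ →
      (∀ i, i < m → b.coord i y = b.coord i z) → TT b G p z ≤ TT b G p y := by
    intro y z hy hz hyz
    have hy1 : ‖y - x‖ < 1 := hy.trans_le ((min_le_left _ _).trans (min_le_left _ _))
    have hy2 : ‖y - x‖ < ‖x‖ / 2 := hy.trans_le ((min_le_left _ _).trans (min_le_right _ _))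
    have hy3 : ‖y - x‖ < c / (2 * β) / K b :=
      hy.trans_le ((min_le_right _ _).trans (min_le_left _ _))
    have hy4 : ‖y - x‖ < δ / (8 * K b ^ 2) :=
      hy.trans_le ((min_le_right _ _).trans (min_le_right _ _))
    have hz4 : ‖z - x‖ < δ / (8 * K b ^ 2) :=
      hz.trans_le ((min_le_right _ _).trans (min_le_right _ _))
    have hyn1 : ‖y‖ ≤ ‖x‖ + 1 := by
      have := norm_add_le (y - x) x
      rw [sub_add_cancel] at this
      linarith
    have hyn2 : ‖x‖ / 2 ≤ ‖y‖ := by
      have := norm_sub_le y (y - x)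
      rw [sub_sub_cancel] at this
      linarith
    apply le_of_forall_pos_le_add
    intro ε hε
    -- a near optimal list
    obtain ⟨l, hl1, hl2⟩ : ∃ l, DomL b y l ∧ cst G p l < TT b G p y + min ε 1 := by
      by_contra hcon
      push Not at hcon
      have h1 := le_TT (b := b) (G := G) (p := p) hcon
      have : 0 < min ε 1 := by positivity
      linarith
    obtain ⟨l', hl'1, hl'2, hl'3⟩ := exists_normal hG hp hl1
    have hcA : cst G p l' ≤ A := by
      have h1 := TT_le_G (p := p) hG y
      have h2 : G y ^ p ≤ (β * (‖x‖ + 1)) ^ p :=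
        Real.rpow_le_rpow (hG.nonneg y) ((hG.upper y).trans
          (mul_le_mul_of_nonneg_left hyn1 hβ.le)) hp.le
      have h3 := min_le_right ε 1
      rw [hA]
      linarith
    have hcB : B ≤ (l'.map G).sum := by
      refine le_trans ?_ (sum_G_ge hG hl'1)
      exact mul_le_mul_of_nonneg_left hyn2 (by positivity)
    obtain ⟨u, hul, huc⟩ := exists_large hG hp hA0 hB0 hc0 hc1 hp1 hcA hcB
    have huy := hl'2 u hul
    have hun : c / β ≤ ‖u‖ := by
      rw [div_le_iff₀ hβ]
      have := hG.upper u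
      linarith
    obtain ⟨v, hv1, hv2⟩ := exists_clamp (b := b) x huy
    have huv : K b * ‖y - x‖ ≤ c / (2 * β) := by
      rw [lt_div_iff₀ hK] at hy3
      linarith
    have hvn : c / (2 * β) ≤ ‖v‖ := by
      have h1 := norm_add_le (u - v) v
      rw [sub_add_cancel] at h1
      have h2 : c / β = c / (2 * β) + c / (2 * β) := by field_simp; norm_num
      linarith
    -- small quantities
    have hs1 : K b * ‖y - x‖ < δ / (8 * K b) := by
      have := mul_lt_mul_of_pos_left hy4 hK
      have e : K b * (δ / (8 * K b ^ 2)) = δ / (8 * K b) := by field_simp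
      linarith
    have hs1' : K b * ‖z - x‖ < δ / (8 * K b) := by
      have := mul_lt_mul_of_pos_left hz4 hK
      have e : K b * (δ / (8 * K b ^ 2)) = δ / (8 * K b) := by field_simp
      linarith
    have hs2 : δ / (8 * K b) ≤ δ / 8 := by
      apply div_le_div_of_nonneg_left hδ.le (by norm_num)
      linarith
    have hmm := hm1 m (le_max_right _ _)
    have hQ : ∀ w : X, ‖w - P b m w‖ ≤ K b * ‖w - x‖ + ‖x - P b m x‖ := by
      intro w
      have h7 : w - P b m w = ((w - x) - P b m (w - x)) + (x - P b m x) := by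
        rw [map_sub]; abel
      rw [h7]
      refine (norm_add_le _ _).trans ?_
      linarith [norm_Q_le (b := b) m (w - x)]
    have hQu : ‖u - P b m u‖ < δ / 4 := by
      have h4 : Dom b (u - P b m u) (y - P b m y) := by
        intro i
        rw [map_sub, map_sub, coord_P, coord_P]
        split
        · rw [sub_self, sub_self]
        · rw [sub_zero, sub_zero]; exact huy i
      have h5 := h4.norm_le
      have h9 : K b * ‖y - P b m y‖ ≤ K b * (K b * ‖y - x‖ + ‖x - P b m x‖) :=
        mul_le_mul_of_nonneg_left (hQ y) hK.le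
      have h10 : K b * (K b * ‖y - x‖ + ‖x - P b m x‖) <
          K b * (δ / (8 * K b) + δ / (8 * K b)) :=
        mul_lt_mul_of_pos_left (by linarith) hK
      have h11 : K b * (δ / (8 * K b) + δ / (8 * K b)) = δ / 4 := by field_simp; norm_num
      linarith
    have hQz : ‖z - P b m z‖ < δ / 4 := by
      have := hQ z
      linarith
    -- the new piece
    set u' : X := P b m u + (z - P b m z) with hu'
    have hu'c : ∀ i, b.coord i u' = if i < m then b.coord i u else b.coord i z := by
      intro i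
      rw [hu', map_add, map_sub, coord_P, coord_P]
      split
      · rw [sub_self, add_zero]
      · rw [sub_zero, zero_add]
    have hGu : G u' = G u := by
      apply hu v ⟨hv1, hvn⟩ u' u
      · have h1 : u' - v = (u - v) + ((z - P b m z) - (u - P b m u)) := by rw [hu']; abel
        rw [h1]
        have h2 := norm_add_le (u - v) ((z - P b m z) - (u - P b m u))
        have h3 := norm_sub_le (z - P b m z) (u - P b m u)
        linarith
      · linarith
      · intro i hi
        rw [hu'c, if_pos (lt_of_lt_of_le hi (le_max_left _ _))]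
    obtain ⟨l1, l2, hl12⟩ := List.append_of_mem hul
    have hdom : DomL b z (l1 ++ u' :: l2) := by
      intro i
      have h1 : (List.map (fun u => |b.coord i u|) (l1 ++ u' :: l2)).sum =
          (l1.map (fun u => |b.coord i u|)).sum + (|b.coord i u'| +
            (l2.map (fun u => |b.coord i u|)).sum) := by
        rw [List.map_append, List.sum_append, List.map_cons, List.sum_cons]
      rw [h1]
      have hl1n : 0 ≤ (l1.map (fun u => |b.coord i u|)).sum := List.sum_nonneg (by
        intro c hc
        obtain ⟨v, _, rfl⟩ := List.mem_map.1 hc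
        exact abs_nonneg _)
      have hl2n : 0 ≤ (l2.map (fun u => |b.coord i u|)).sum := List.sum_nonneg (by
        intro c hc
        obtain ⟨v, _, rfl⟩ := List.mem_map.1 hc
        exact abs_nonneg _)
      by_cases hi : i < m
      · have h2 := hl'1 i
        rw [hl12, List.map_append, List.sum_append, List.map_cons, List.sum_cons,
          hyz i hi] at h2
        rw [hu'c, if_pos hi]
        exact h2
      · rw [hu'c, if_neg hi]
        linarith
    have hcst : cst G p (l1 ++ u' :: l2) = cst G p l' := by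
      rw [hl12]
      unfold cst
      rw [List.map_append, List.sum_append, List.map_cons, List.sum_cons, List.map_append,
        List.sum_append, List.map_cons, List.sum_cons, hGu]
    have hfin := TT_le (p := p) hG hdom
    rw [hcst] at hfin
    have := min_le_left ε 1
    linarith
  intro y z hy hz hyz
  exact le_antisymm (key z y hz hy (fun i hi => (hyz i hi).symm)) (key y z hy hz hyz)

end

theorem exists_pnorm (b : UnconditionalSchauderBasis ℕ ℝ X)
    (h : Pool.Agent.LibOrlicz.HasLFCBump X) : ∃ a c : ℝ, 0 < a ∧ 0 < c ∧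
    ∀ p : ℝ, 0 < p → p < 1 → ∃ ρ : X → ℝ, IsLocPNorm b p a c ρ := by
  obtain ⟨G, α, β, hG⟩ := exists_gauge b h
  have hK := K_pos (b := b)
  have hα := hG.αpos
  have hβ := hG.βpos
  refine ⟨α / K b ^ 2, β, by positivity, hβ, fun p hp hp1 => ⟨fun x => TT b G p x ^ p⁻¹, ?_⟩⟩
  have hp0 : 0 ≤ p⁻¹ := (inv_pos.2 hp).le
  refine ⟨fun x => ?_, fun x => ?_, fun t x => ?_, fun x y => ?_, fun x y hxy => ?_,
    fun x hx => ?_⟩
  · have h1 := Real.rpow_le_rpow (Real.rpow_nonneg (by positivity) _)
      (TT_ge (b := b) hG hp hp1.le x) hp0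
    rwa [Real.rpow_rpow_inv (by positivity) hp.ne'] at h1
  · have h1 : TT b G p x ≤ (β * ‖x‖) ^ p :=
      (TT_le_G hG x).trans (Real.rpow_le_rpow (hG.nonneg x) (hG.upper x) hp.le)
    have h2 := Real.rpow_le_rpow (TT_nonneg hG x) h1 hp0
    rwa [Real.rpow_rpow_inv (by positivity) hp.ne'] at h2
  · rw [TT_smul hG hp, Real.mul_rpow (Real.rpow_nonneg (abs_nonneg _) _) (TT_nonneg hG x),
      Real.rpow_rpow_inv (abs_nonneg _) hp.ne']
  · rw [Real.rpow_inv_rpow (TT_nonneg hG _) hp.ne', Real.rpow_inv_rpow (TT_nonneg hG _) hp.ne',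
      Real.rpow_inv_rpow (TT_nonneg hG _) hp.ne']
    exact TT_add_le hG x y
  · exact Real.rpow_le_rpow (TT_nonneg hG x) (TT_mono hG hxy) hp0
  · obtain ⟨m, δ, hδ, h1⟩ := lc_TT (b := b) hG hp hp1 x hx
    refine ⟨Metric.ball x δ, Metric.ball_mem_nhds x hδ, m, fun y hy z hz hyz => ?_⟩
    rw [Metric.mem_ball, dist_eq_norm] at hy hz
    show TT b G p y ^ p⁻¹ = TT b G p z ^ p⁻¹
    rw [h1 y z hy hz hyz]

/-! ### the converse -/

lemma IsLocPNorm.nonneg {p a c : ℝ} {ρ : X → ℝ} (ha : 0 < a) (h : IsLocPNorm b p a c ρ) (x : X) :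
    0 ≤ ρ x := (mul_nonneg ha.le (norm_nonneg _)).trans (h.lower x)

lemma IsLocPNorm.continuous {p a c : ℝ} {ρ : X → ℝ} (hp : 0 < p) (ha : 0 < a)
    (h : IsLocPNorm b p a c ρ) : Continuous ρ := by
  have h1 : ∀ x y, ρ x ^ p - ρ y ^ p ≤ (c * ‖x - y‖) ^ p := by
    intro x y
    have h2 := h.add_le (x - y) y
    rw [sub_add_cancel] at h2
    have h3 : ρ (x - y) ^ p ≤ (c * ‖x - y‖) ^ p :=
      Real.rpow_le_rpow (h.nonneg ha _) (h.upper _) hp.le
    linarith
  have h2 : Continuous (fun x => ρ x ^ p) := by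
    rw [continuous_iff_continuousAt]
    intro x
    rw [ContinuousAt, tendsto_iff_dist_tendsto_zero]
    have h3 : Tendsto (fun y : X => (c * ‖y - x‖) ^ p) (𝓝 x) (𝓝 0) := by
      have h4 : ContinuousAt (fun y : X => (c * ‖y - x‖) ^ p) x :=
        ContinuousAt.rpow_const (by fun_prop) (Or.inr hp.le)
      have h5 := h4.tendsto
      simp only [sub_self, norm_zero, mul_zero] at h5
      rwa [Real.zero_rpow hp.ne'] at h5
    refine squeeze_zero (fun y => dist_nonneg) (fun y => ?_) h3
    rw [Real.dist_eq, abs_le]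
    have h4 := h1 x y
    have h5 := h1 y x
    rw [norm_sub_rev] at h4
    constructor <;> linarith
  have h3 : ρ = fun x => (ρ x ^ p) ^ p⁻¹ := by
    funext x
    rw [Real.rpow_rpow_inv (h.nonneg ha x) hp.ne']
  rw [h3]
  exact h2.rpow_const (fun x => Or.inr (inv_pos.2 hp).le)

theorem hasLFCBump_of_pnorm {p a c : ℝ} {ρ : X → ℝ} (hp : 0 < p) (ha : 0 < a) (hc : 0 < c)
    (h : IsLocPNorm b p a c ρ) : Pool.Agent.LibOrlicz.HasLFCBump X := by
  classical
  have hcont := h.continuous hp ha
  have hρ0 : ρ 0 = 0 := by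
    apply le_antisymm _ (h.nonneg ha 0)
    have := h.upper 0
    rwa [norm_zero, mul_zero] at this
  have hK := K_pos (b := b)
  set f : X → ℝ := fun x => max 0 (min 1 (2 - ρ x)) with hf
  have hfc : Continuous f := by fun_prop
  refine ⟨f, hfc, ?_, ?_, ?_⟩
  · intro h0
    have := congrFun h0 0
    simp only [hf] at this
    rw [hρ0] at this
    norm_num at this
  · apply (Metric.isBounded_closedBall (x := (0 : X)) (r := 2 / a)).subset
    intro x hx
    rw [Function.mem_support] at hx
    rw [mem_closedBall_zero_iff, le_div_iff₀ ha]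
    by_contra hcon
    rw [not_le] at hcon
    apply hx
    apply max_eq_left
    refine (min_le_right _ _).trans ?_
    have := h.lower x
    linarith
  · intro x
    rcases eq_or_ne x 0 with h0 | h0
    · refine ⟨Metric.ball 0 (1 / c), by rw [h0]; exact Metric.ball_mem_nhds _ (by positivity), 0,
        fun i => i.elim0, fun _ => 1, continuous_const, fun z hz => ?_⟩
      rw [mem_ball_zero_iff, lt_div_iff₀ hc] at hz
      show max 0 (min 1 (2 - ρ z)) = 1
      have := h.upper z
      rw [min_eq_left (by linarith), max_eq_right zero_le_one]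
    · obtain ⟨U, hU, n, hn⟩ := h.loc x h0
      obtain ⟨δ, hδ, hδU⟩ := Metric.mem_nhds_iff.1 hU
      obtain ⟨N, hN⟩ := Metric.tendsto_atTop.1 (tendsto_P (b := b) x) δ hδ
      set n' := max n N with hn'
      have hPx : P b n' x ∈ Metric.ball x δ := by
        rw [Metric.mem_ball]
        exact hN n' (le_max_right _ _)
      refine ⟨Metric.ball x δ ∩ (P b n') ⁻¹' Metric.ball x δ, ?_, n', fun i => b.coord i,
        fun v => f (∑ i : Fin n', v i • b i), by fun_prop, ?_⟩
      · apply Filter.inter_mem (Metric.ball_mem_nhds x hδ)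
        exact (P b n').continuous.continuousAt (Metric.isOpen_ball.mem_nhds hPx)
      · rintro z ⟨hz1, hz2⟩
        have h1 : ρ z = ρ (P b n' z) := by
          apply hn z (hδU hz1) _ (hδU hz2)
          intro i hi
          rw [coord_P, if_pos (lt_of_lt_of_le hi (le_max_left _ _))]
        have h2 : P b n' z = ∑ i : Fin n', b.coord i z • b i := by
          unfold P
          rw [GeneralSchauderBasis.proj_apply, Finset.sum_range]
        show max 0 (min 1 (2 - ρ z)) = f (∑ i : Fin n', b.coord i z • b i)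
        rw [h1, h2]

end Pool.Agent.LibPNormLFC
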