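import Pool.Agent.Lib_MP_b3cab1_pn.Basic
import Pool.Agent.Lib_MP_b3cab1_an.Poly

set_option autoImplicit false

/-!
# A bump function which locally depends on finitely many coordinates makes the basis shrinking
-/

open Filter Topology Set

namespace Pool.Agent.LibPNormLFC

open Pool.Agent.LibOrlicz (HasLFCBump)

/-- a maximality principle -/
theorem exists_maximal {Z : Type} [MetricSpace Z] [CompleteSpace Z] (R : Z → Z → Prop) (h : Z → ℝ)
    {z0 : Z} {M : ℝ} (hrefl : ∀ z, R z z) (htrans : ∀ x y z, R x y → R y z → R x z)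
    (hclosed : ∀ z, IsClosed {z' | R z z'}) (hd : ∀ z z', R z z' → dist z z' ≤ h z' - h z)
    (hb : ∀ z, R z0 z → h z ≤ M) : ∃ w, R z0 w ∧ ∀ w', R w w' → w' = w := by
  classical
  have hstep : ∀ z : Z, R z0 z → ∃ z', R z z' ∧ ∀ z'', R z z'' → h z'' - h z ≤ 2 * (h z' - h z) := by
    intro z hz
    set S : Set ℝ := {s | ∃ z'', R z z'' ∧ s = h z'' - h z} with hS
    have hSne : S.Nonempty := ⟨0, z, hrefl z, by simp⟩
    have hSb : BddAbove S := by
      refine ⟨M - h z, ?_⟩
      rintro _ ⟨z'', h1, rfl⟩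
      linarith [hb z'' (htrans _ _ _ hz h1)]
    by_cases h0 : sSup S ≤ 0
    · refine ⟨z, hrefl z, fun z'' h1 => ?_⟩
      have := le_csSup hSb ⟨z'', h1, rfl⟩
      rw [sub_self, mul_zero]
      exact this.trans h0
    · rw [not_le] at h0
      obtain ⟨s, ⟨z', h1, rfl⟩, h2⟩ :=
        exists_lt_of_lt_csSup hSne (show sSup S / 2 < sSup S by linarith)
      refine ⟨z', h1, fun z'' h3 => ?_⟩
      have := le_csSup hSb ⟨z'', h3, rfl⟩
      linarith
  choose! F hF1 hF2 using hstep
  set z : ℕ → Z := fun k => F^[k] z0 with hz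
  have hzs : ∀ k, z (k + 1) = F (z k) := fun k => Function.iterate_succ_apply' F k z0
  have hz0 : ∀ k, R z0 (z k) := by
    intro k
    induction k with
    | zero => exact hrefl z0
    | succ k ih =>
      rw [hzs]
      exact htrans _ _ _ ih (hF1 _ ih)
  have hleg : ∀ k, R (z k) (z (k + 1)) := fun k => by
    rw [hzs]; exact hF1 _ (hz0 k)
  have hlegle : ∀ k l, k ≤ l → R (z k) (z l) := by
    intro k l hkl
    induction l, hkl using Nat.le_induction with
    | base => exact hrefl _
    | succ l _ ih => exact htrans _ _ _ ih (hleg l)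
  have hmono : Monotone (fun k => h (z k)) := by
    intro k l hkl
    have := hd _ _ (hlegle k l hkl)
    have h1 := dist_nonneg (x := z k) (y := z l)
    show h (z k) ≤ h (z l)
    linarith
  have hbdd : BddAbove (range (fun k => h (z k))) := by
    refine ⟨M, ?_⟩
    rintro _ ⟨k, rfl⟩
    exact hb _ (hz0 k)
  have hlim := tendsto_atTop_ciSup hmono hbdd
  set L := ⨆ k, h (z k) with hL
  have hle : ∀ k, h (z k) ≤ L := fun k => le_ciSup hbdd k
  have hcauchy : CauchySeq z := by
    rw [Metric.cauchySeq_iff']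
    intro ε hε
    obtain ⟨N, hN⟩ := eventually_atTop.1 ((tendsto_order.1 hlim).1 (L - ε) (by linarith))
    refine ⟨N, fun n hn => ?_⟩
    have h1 := hd _ _ (hlegle N n hn)
    have h2 := hN N le_rfl
    have h3 := hle n
    rw [dist_comm]
    linarith
  obtain ⟨w, hw⟩ := cauchySeq_tendsto_of_complete hcauchy
  have hlegw : ∀ k, R (z k) w := by
    intro k
    have h1 : ∀ᶠ l in atTop, z l ∈ {z' | R (z k) z'} :=
      eventually_atTop.2 ⟨k, fun l hl => hlegle k l hl⟩
    exact (hclosed (z k)).mem_of_tendsto hw h1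
  refine ⟨w, hlegw 0, fun w' hw' => ?_⟩
  have h1 : ∀ k, h w' ≤ h (z k) + 2 * (h (z (k + 1)) - h (z k)) := by
    intro k
    have h2 := hF2 (z k) (hz0 k) w' (htrans _ _ _ (hlegw k) hw')
    rw [← hzs] at h2
    linarith
  have h2 : Tendsto (fun k => h (z k) + 2 * (h (z (k + 1)) - h (z k))) atTop (𝓝 (L + 2 * (L - L))) := by
    have h3 : Tendsto (fun k => h (z (k + 1))) atTop (𝓝 L) := hlim.comp (tendsto_add_atTop_nat 1)
    exact hlim.add ((h3.sub hlim).const_mul 2)
  have h3 : h w' ≤ L := by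
    have := ge_of_tendsto' h2 h1
    linarith
  have h4 : L ≤ h w := by
    apply ciSup_le
    intro k
    have := hd _ _ (hlegw k)
    have h5 := dist_nonneg (x := z k) (y := w)
    linarith
  have h5 := hd _ _ hw'
  have h6 : dist w w' ≤ 0 := by linarith
  exact (dist_le_zero.1 h6).symm

/-- two terms of a bounded sequence are close -/
lemma exists_close {n : ℕ} (v : ℕ → Fin n → ℝ) {B : ℝ} (hB : ∀ m, ‖v m‖ ≤ B) {η : ℝ}
    (hη : 0 < η) : ∃ m m', m < m' ∧ ‖v m - v m'‖ < η := by
  obtain ⟨a, _, φ, hφ, h⟩ := tendsto_subseq_of_bounded (x := v)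
    (Metric.isBounded_closedBall (x := (0 : Fin n → ℝ)) (r := B))
    (fun m => by rw [mem_closedBall_zero_iff]; exact hB m)
  have hc := h.cauchySeq
  rw [Metric.cauchySeq_iff] at hc
  obtain ⟨N, hN⟩ := hc η hη
  refine ⟨φ N, φ (N + 1), hφ (Nat.lt_succ_self N), ?_⟩
  have := hN N le_rfl (N + 1) (by omega)
  rwa [dist_eq_norm] at this

section

variable {X : Type} [NormedAddCommGroup X] [NormedSpace ℝ X]

/-- `B` is locally a continuous function of finitely many functionals -/
def LFC (B : X → ℝ) : Prop :=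
  ∀ x : X, ∃ U ∈ nhds x, ∃ n : ℕ, ∃ φ : Fin n → (X →L[ℝ] ℝ),
    ∃ g : (Fin n → ℝ) → ℝ, Continuous g ∧ ∀ z ∈ U, B z = g (fun i => φ i z)

/-- `B` is a continuous LFC function which is `0` at `0` and `1` outside of a ball -/
structure Step (B : X → ℝ) (R : ℝ) : Prop where
  cont : Continuous B
  nonneg : ∀ x, 0 ≤ B x
  le_one : ∀ x, B x ≤ 1
  zero : B 0 = 0
  out : ∀ x, R ≤ ‖x‖ → B x = 1
  pos : 0 < R
  lfc : LFC B

lemma exists_step (h : HasLFCBump X) : ∃ (B : X → ℝ) (R : ℝ), Step B R := by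
  obtain ⟨f, hf, hf0, hfb, hfl⟩ := h
  obtain ⟨x0, hx0⟩ : ∃ x0, f x0 ≠ 0 := by
    by_contra hcon
    push Not at hcon
    exact hf0 (funext hcon)
  obtain ⟨R, hR⟩ := hfb.exists_norm_le
  have hR' : ∀ x, f x ≠ 0 → ‖x‖ ≤ R := fun x hx => hR x hx
  have hR0 : 0 ≤ R := (norm_nonneg _).trans (hR' x0 hx0)
  refine ⟨fun x => min 1 |f (x + x0) / f x0 - 1|, R + ‖x0‖ + 1, ?_⟩
  refine ⟨by fun_prop, fun x => by positivity, fun x => min_le_left _ _, ?_, ?_, by positivity, ?_⟩
  · rw [zero_add, div_self hx0, sub_self, abs_zero]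
    exact min_eq_right zero_le_one
  · intro x hx
    have h1 : f (x + x0) = 0 := by
      by_contra hne
      have h2 := hR' _ hne
      have h3 : ‖x‖ ≤ ‖x + x0‖ + ‖x0‖ := by
        have := norm_sub_le (x + x0) x0
        rwa [add_sub_cancel_right] at this
      linarith
    rw [h1, zero_div, zero_sub, abs_neg, abs_one, min_self]
  · intro x
    obtain ⟨U, hU, n, φ, g, hg, h⟩ := hfl (x + x0)
    refine ⟨(fun z => z + x0) ⁻¹' U, (continuous_add_right x0).continuousAt hU, n, φ,
      fun v => min 1 |g (fun i => v i + φ i x0) / f x0 - 1|, by fun_prop, fun z hz => ?_⟩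
    show min 1 |f (z + x0) / f x0 - 1| = _
    rw [h _ hz]
    simp only [map_add]

variable {b : UnconditionalSchauderBasis ℕ ℝ X} [CompleteSpace X]

variable (b) in
/-- the seminorm of a functional -/
noncomputable def gs (f : X →L[ℝ] ℝ) (z : X) : ℝ := ∑' i, |f (b i)| * |b.coord i z|

lemma summable_gs (f : X →L[ℝ] ℝ) (z : X) : Summable fun i => |f (b i)| * |b.coord i z| :=
  summable_of_sum_le (fun i => by positivity) (sum_abs_le f z)

lemma gs_nonneg (f : X →L[ℝ] ℝ) (z : X) : 0 ≤ gs b f z := tsum_nonneg (fun i => by positivity)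

lemma gs_le (f : X →L[ℝ] ℝ) (z : X) : gs b f z ≤ K b * ‖f‖ * ‖z‖ :=
  (summable_gs f z).tsum_le_of_sum_le (sum_abs_le f z)

lemma gs_add_le (f : X →L[ℝ] ℝ) (z w : X) : gs b f (z + w) ≤ gs b f z + gs b f w := by
  unfold gs
  rw [← (summable_gs f z).tsum_add (summable_gs f w)]
  refine (summable_gs f (z + w)).tsum_le_tsum (fun i => ?_)
    ((summable_gs f z).add (summable_gs f w))
  rw [← mul_add, map_add]
  exact mul_le_mul_of_nonneg_left (abs_add_le _ _) (abs_nonneg _)

lemma gs_neg (f : X →L[ℝ] ℝ) (z : X) : gs b f (-z) = gs b f z := by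
  unfold gs
  apply tsum_congr
  intro i
  rw [map_neg, abs_neg]

lemma gs_zero (f : X →L[ℝ] ℝ) : gs b f 0 = 0 := by
  unfold gs
  simp

lemma continuous_gs (f : X →L[ℝ] ℝ) : Continuous (gs b f) := by
  apply (LipschitzWith.of_le_add_mul (Real.toNNReal (K b * ‖f‖)) (fun x y => ?_)).continuous
  rw [Real.coe_toNNReal _ (mul_nonneg K_pos.le (norm_nonneg _)), dist_eq_norm]
  have h1 := gs_add_le (b := b) f y (x - y)
  rw [add_sub_cancel] at h1
  linarith [gs_le (b := b) f (x - y)]

lemma abs_le_gs (f : X →L[ℝ] ℝ) (z : X) : |f z| ≤ gs b f z := by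
  have h1 := (b.expansion z).mapL f
  have h2 : Summable fun i => ‖f (b.coord i z • b i)‖ := by
    refine (summable_gs (b := b) f z).congr (fun i => ?_)
    rw [map_smul, smul_eq_mul, norm_mul, Real.norm_eq_abs, Real.norm_eq_abs, mul_comm]
  have h3 := norm_tsum_le_tsum_norm h2
  rw [h1.tsum_eq, Real.norm_eq_abs] at h3
  refine h3.trans (le_of_eq ?_)
  unfold gs
  apply tsum_congr
  intro i
  rw [map_smul, smul_eq_mul, norm_mul, Real.norm_eq_abs, Real.norm_eq_abs, mul_comm]

/-- adding a far vector -/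
lemma gs_add_far (f : X →L[ℝ] ℝ) (w y : X) (m : ℕ) (hy : ∀ i, i < m → b.coord i y = 0) :
    gs b f w + gs b f y - 2 * gs b f (w - P b m w) ≤ gs b f (w + y) := by
  have h1 : gs b f w + gs b f y ≤ gs b f (w + y) + 2 * gs b f (w - P b m w) := by
    unfold gs
    rw [← (summable_gs f w).tsum_add (summable_gs f y), ← tsum_mul_left,
      ← (summable_gs f (w + y)).tsum_add ((summable_gs f (w - P b m w)).mul_left 2)]
    refine ((summable_gs f w).add (summable_gs f y)).tsum_le_tsum (fun i => ?_)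
      ((summable_gs f (w + y)).add ((summable_gs f (w - P b m w)).mul_left 2))
    rw [map_add, map_sub, coord_P]
    by_cases hi : i < m
    · rw [hy i hi, if_pos hi, sub_self, abs_zero, add_zero, mul_zero, mul_zero]
    · rw [if_neg hi, sub_zero]
      have h2 : |b.coord i y| ≤ |b.coord i w + b.coord i y| + |b.coord i w| := by
        have := abs_add_le (b.coord i w + b.coord i y) (-b.coord i w)
        rw [abs_neg, add_neg_cancel_comm] at this
        exact this
      have h3 := mul_le_mul_of_nonneg_left h2 (abs_nonneg (f (b i)))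
      linarith
  linarith

/-- disjoint vectors -/
lemma gs_sub_disjoint (f : X →L[ℝ] ℝ) (u v : X) (n : ℕ) (hu : ∀ i, n ≤ i → b.coord i u = 0)
    (hv : ∀ i, i < n → b.coord i v = 0) : gs b f (u - v) = gs b f u + gs b f v := by
  unfold gs
  rw [← (summable_gs f u).tsum_add (summable_gs f v)]
  apply tsum_congr
  intro i
  rw [map_sub]
  rcases lt_or_ge i n with h | h
  · rw [hv i h, sub_zero, abs_zero, mul_zero, add_zero]
  · rw [hu i h, zero_sub, abs_neg, abs_zero, mul_zero, zero_add]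

/-- blocks on which a functional is not small -/
lemma exists_block_of_not {f : X →L[ℝ] ℝ} {ε : ℝ} (hε : 0 < ε)
    (h : ∀ M : ℕ, ∃ m, M ≤ m ∧ ∃ y : X, ε * ‖y‖ < |f (y - P b m y)|) (M : ℕ) :
    ∃ (u : X) (n : ℕ), M ≤ n ∧ (∀ i, i < M → b.coord i u = 0) ∧ (∀ i, n ≤ i → b.coord i u = 0) ∧
      ‖u‖ ≤ 1 ∧ ε / (2 * K b) ≤ |f u| := by
  obtain ⟨m, hm, y, hy⟩ := h M
  have hy0 : y ≠ 0 := by
    intro h0
    rw [h0] at hy
    simp at hy
  have hny : 0 < ‖y‖ := norm_pos_iff.2 hy0
  have h1 : Tendsto (fun n => |f (P b n y - P b m y)|) atTop (𝓝 |f (y - P b m y)|) :=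
    ((f.continuous.tendsto _).comp ((tendsto_P y).sub_const _)).abs
  obtain ⟨n, hn1, hn2⟩ := (((tendsto_order.1 h1).1 _ hy).and (eventually_ge_atTop m)).exists
  have hK := K_pos (b := b)
  refine ⟨(2 * K b * ‖y‖)⁻¹ • (P b n y - P b m y), n, by omega, ?_, ?_, ?_, ?_⟩
  · intro i hi
    rw [map_smul, map_sub, coord_P, coord_P, if_pos (by omega), if_pos (by omega), sub_self,
      smul_zero]
  · intro i hi
    rw [map_smul, map_sub, coord_P, coord_P, if_neg (by omega), if_neg (by omega), sub_self,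
      smul_zero]
  · rw [norm_smul, Real.norm_of_nonneg (by positivity), inv_mul_le_iff₀ (by positivity), mul_one]
    refine (norm_sub_le _ _).trans ?_
    linarith [norm_P_le (b := b) n y, norm_P_le (b := b) m y]
  · rw [map_smul, smul_eq_mul, abs_mul, abs_of_pos (by positivity : 0 < (2 * K b * ‖y‖)⁻¹)]
    rw [div_le_iff₀ (by positivity)]
    have h2 : (2 * K b * ‖y‖)⁻¹ * |f (P b n y - P b m y)| * (2 * K b) =
        |f (P b n y - P b m y)| / ‖y‖ := by
      field_simp
    rw [h2, le_div_iff₀ hny]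
    exact hn1.le

/-- The basis is shrinking. -/
theorem shrinking {B : X → ℝ} {R : ℝ} (hB : Step B R) (f : X →L[ℝ] ℝ) {ε : ℝ} (hε : 0 < ε) :
    ∃ M : ℕ, ∀ m, M ≤ m → ∀ y : X, |f (y - P b m y)| ≤ ε * ‖y‖ := by
  classical
  by_contra hcon
  push Not at hcon
  have hblock := exists_block_of_not (b := b) hε hcon
  have hK := K_pos (b := b)
  set δ : ℝ := ε / (2 * K b) with hδ
  have hδ0 : 0 < δ := by positivity
  have hR := hB.pos
  set M0 : ℝ := K b * ‖f‖ * R + 1 with hM0
  have hM0p : 0 < M0 := by positivity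
  set ε' : ℝ := 1 / (2 * M0) with hε'
  have hε'0 : 0 < ε' := by positivity
  set κ : ℝ := 2 / δ with hκ
  have hκ0 : 0 < κ := by positivity
  set g := gs b f with hg
  have hgc : Continuous g := continuous_gs f
  set Rel : X → X → Prop := fun z z' => z' = z ∨ (g z' ≤ M0 ∧ ‖z' - z‖ ≤ κ * (g z' - g z) ∧
    |B z' - B z| ≤ ε' * (g z' - g z)) with hRel
  obtain ⟨w, hw1, hw2⟩ := exists_maximal (Z := X) Rel (fun z => κ * g z) (z0 := 0) (M := κ * M0)
    (fun z => Or.inl rfl) (by
      rintro x y z (rfl | ⟨h1, h2, h3⟩) (rfl | ⟨h4, h5, h6⟩)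
      · exact Or.inl rfl
      · exact Or.inr ⟨h4, h5, h6⟩
      · exact Or.inr ⟨h1, h2, h3⟩
      · refine Or.inr ⟨h4, ?_, ?_⟩
        · have := norm_add_le (z - y) (y - x)
          rw [sub_add_sub_cancel] at this
          linarith
        · have := abs_add_le (B z - B y) (B y - B x)
          rw [sub_add_sub_cancel] at this
          linarith) (by
      intro z
      have h1 : {z' | Rel z z'} = {z} ∪ {z' | g z' ≤ M0 ∧ ‖z' - z‖ ≤ κ * (g z' - g z) ∧
          |B z' - B z| ≤ ε' * (g z' - g z)} := by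
        ext z'
        rfl
      rw [h1]
      have hBc := hB.cont
      have c1 : IsClosed {z' | g z' ≤ M0} := isClosed_le hgc continuous_const
      have c2 : IsClosed {z' | ‖z' - z‖ ≤ κ * (g z' - g z)} :=
        isClosed_le (by fun_prop) (by fun_prop)
      have c3 : IsClosed {z' | |B z' - B z| ≤ ε' * (g z' - g z)} :=
        isClosed_le (by fun_prop) (by fun_prop)
      exact isClosed_singleton.union (c1.inter (c2.inter c3))) (by
      rintro z z' (rfl | ⟨h1, h2, h3⟩)
      · simp
      · rw [dist_comm, dist_eq_norm]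
        linarith) (by
      rintro z (rfl | ⟨h1, h2, h3⟩)
      · show κ * g 0 ≤ κ * M0
        rw [hg, gs_zero]
        exact mul_le_mul_of_nonneg_left hM0p.le hκ0.le
      · exact mul_le_mul_of_nonneg_left h1 hκ0.le)
  -- the value at `w`
  have hBw : B w ≤ 1 / 2 := by
    rcases hw1 with rfl | ⟨h1, h2, h3⟩
    · rw [hB.zero]; norm_num
    · have h4 : g 0 = 0 := gs_zero f
      rw [hB.zero, sub_zero, h4, sub_zero] at h3
      have h5 : ε' * g w ≤ ε' * M0 := mul_le_mul_of_nonneg_left h1 hε'0.le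
      have h6 : ε' * M0 = 1 / 2 := by rw [hε']; field_simp
      linarith [le_abs_self (B w)]
  have hnw : ‖w‖ < R := by
    by_contra hc
    rw [hB.out w (not_lt.1 hc)] at hBw
    norm_num at hBw
  have hgw : g w ≤ M0 - 1 := by
    have h1 := gs_le (b := b) f w
    have h2 : K b * ‖f‖ * ‖w‖ ≤ K b * ‖f‖ * R := mul_le_mul_of_nonneg_left hnw.le (by positivity)
    rw [hM0]
    linarith
  -- the extension
  obtain ⟨U, hU, n, φ, g0, hg0, hgU⟩ := hB.lfc w
  obtain ⟨r, hr, hrU⟩ := Metric.mem_nhds_iff.1 hU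
  set a : ℝ := min (r / 4) (1 / (2 * (K b * ‖f‖) + 2)) with ha
  have ha0 : 0 < a := by positivity
  have har : 2 * a < r := by
    have : a ≤ r / 4 := min_le_left _ _
    linarith
  have haf : K b * ‖f‖ * (2 * a) ≤ 1 := by
    have h1 : a ≤ 1 / (2 * (K b * ‖f‖) + 2) := min_le_right _ _
    rw [le_div_iff₀ (by positivity)] at h1
    nlinarith
  obtain ⟨η, hη, hgη⟩ := Metric.continuousAt_iff.1 (hg0.continuousAt (x := fun i => φ i w))
    (ε' * (a * δ)) (by positivity)
  obtain ⟨m, hm⟩ : ∃ m, 2 * g (w - P b m w) ≤ a * δ := by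
    have h1 : Tendsto (fun m => 2 * g (w - P b m w)) atTop (𝓝 (2 * g (w - w))) :=
      ((hgc.tendsto _).comp ((tendsto_P (b := b) w).const_sub w)).const_mul 2
    rw [sub_self, hg, gs_zero, mul_zero] at h1
    obtain ⟨m, hm⟩ := ((tendsto_order.1 h1).2 (a * δ) (by positivity)).exists
    exact ⟨m, hm.le⟩
  choose u nx hnx hu1 hu2 hu3 hu4 using hblock
  set p : ℕ → ℕ := fun k => Nat.rec m (fun _ q => nx q) k with hp
  have hps : ∀ k, p (k + 1) = nx (p k) := fun k => rfl
  have hp0 : p 0 = m := rfl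
  have hpmono : Monotone p := monotone_nat_of_le_succ (fun k => by rw [hps]; exact hnx _)
  obtain ⟨k, k', hkk, hclose⟩ := exists_close
    (fun k => (fun l => φ l (a • u (p k)) : Fin n → ℝ)) (B := ‖fun l => ‖φ l‖ * a‖) (fun k => by
      rw [pi_norm_le_iff_of_nonneg (norm_nonneg _)]
      intro l
      refine ((φ l).le_opNorm _).trans ?_
      refine le_trans ?_ (norm_le_pi_norm (fun l => ‖φ l‖ * a) l)
      rw [Real.norm_of_nonneg (by positivity)]
      apply mul_le_mul_of_nonneg_left _ (norm_nonneg _)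
      rw [norm_smul, Real.norm_of_nonneg ha0.le]
      exact mul_le_of_le_one_right ha0.le (hu3 _)) hη
  set y : X := a • (u (p k) - u (p k')) with hy
  have hpk : m ≤ p k := by rw [← hp0]; exact hpmono (Nat.zero_le k)
  have hpk' : nx (p k) ≤ p k' := by rw [← hps]; exact hpmono hkk
  have hpkk : p k ≤ p k' := hpmono hkk.le
  have hyfar : ∀ i, i < m → b.coord i y = 0 := by
    intro i hi
    rw [hy, map_smul, map_sub, hu1 _ i (by omega), hu1 _ i (by omega), sub_self, smul_zero]
  have hgy : 2 * (a * δ) ≤ g y := by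
    have h1 : g y = gs b f (a • u (p k) - a • u (p k')) := by rw [hg, hy, smul_sub]
    rw [h1, gs_sub_disjoint f _ _ (nx (p k)) (fun i hi => by
      rw [map_smul, hu2 _ i hi, smul_zero]) (fun i hi => by
      rw [map_smul, hu1 _ i (by omega), smul_zero])]
    have h2 : ∀ q, a * δ ≤ gs b f (a • u q) := by
      intro q
      refine le_trans ?_ (abs_le_gs f _)
      rw [map_smul, smul_eq_mul, abs_mul, abs_of_pos ha0]
      exact mul_le_mul_of_nonneg_left (hu4 q) ha0.le
    linarith [h2 (p k), h2 (p k')]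
  have hny : ‖y‖ ≤ 2 * a := by
    rw [hy, norm_smul, Real.norm_of_nonneg ha0.le]
    have h1 := norm_sub_le (u (p k)) (u (p k'))
    have h2 := hu3 (p k)
    have h3 := hu3 (p k')
    nlinarith
  have hgain : a * δ ≤ g (w + y) - g w := by
    have h1 := gs_add_far (b := b) f w y m hyfar
    rw [← hg] at h1
    linarith
  have hwy : Rel w (w + y) := by
    refine Or.inr ⟨?_, ?_, ?_⟩
    · have h1 := gs_add_le (b := b) f w y
      have h2 := gs_le (b := b) f y
      have h3 : K b * ‖f‖ * ‖y‖ ≤ K b * ‖f‖ * (2 * a) :=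
        mul_le_mul_of_nonneg_left hny (by positivity)
      rw [← hg] at h1 h2
      linarith
    · rw [add_sub_cancel_left]
      have h1 : κ * (a * δ) ≤ κ * (g (w + y) - g w) := mul_le_mul_of_nonneg_left hgain hκ0.le
      have h2 : κ * (a * δ) = 2 * a := by rw [hκ]; field_simp
      linarith
    · have hwU : w ∈ U := mem_of_mem_nhds hU
      have hyU : w + y ∈ U := hrU (by
        rw [Metric.mem_ball, dist_eq_norm, add_sub_cancel_left]
        linarith)
      rw [hgU w hwU, hgU _ hyU]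
      have e : (fun l => φ l (w + y)) - (fun l => φ l w)
          = (fun l => φ l (a • u (p k))) - (fun l => φ l (a • u (p k'))) := by
        funext l
        show φ l (w + y) - φ l w = φ l (a • u (p k)) - φ l (a • u (p k'))
        rw [map_add, add_sub_cancel_left, hy, smul_sub, map_sub]
      have h3 : dist (fun l => φ l (w + y)) (fun l => φ l w) < η := by
        rw [dist_eq_norm, e]
        exact hclose
      have h4 := hgη h3
      rw [Real.dist_eq] at h4
      exact h4.le.trans (mul_le_mul_of_nonneg_left hgain hε'0.le)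
  have h1 := hw2 _ hwy
  have h2 : y = 0 := by
    have := congrArg (fun v => v - w) h1
    simpa using this
  rw [h2, hg, gs_zero] at hgy
  have : 0 < a * δ := by positivity
  linarith

end

end Pool.Agent.LibPNormLFC
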